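import Pool.Agent.U398.RL.Stm2

set_option autoImplicit false

/-!
# The lattice `2E_8 + D_4`
-/

namespace Pool.Agent.U398.RL

open Pool.Agent.Y813.RL Matrix

theorem bf_blocks {ι κ R : Type*} [Fintype ι] [Fintype κ] [CommRing R]
    (A : Matrix ι ι ℤ) (B : Matrix κ κ ℤ) (x y : ι ⊕ κ → R) :
    bf (Matrix.fromBlocks A 0 0 B) x y =
      bf A (fun i => x (.inl i)) (fun i => y (.inl i)) +
      bf B (fun i => x (.inr i)) (fun i => y (.inr i)) := by
  unfold bf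
  simp [Fintype.sum_sum_type]

theorem bf_E8 {R : Type*} [CommRing R] (x y : Fin 8 → R) :
    bf CartanMatrix.E₈ x y =
      2 * (x 0 * y 0 + x 1 * y 1 + x 2 * y 2 + x 3 * y 3 + x 4 * y 4 + x 5 * y 5 + x 6 * y 6 +
        x 7 * y 7) - (x 0 * y 2 + x 2 * y 0) - (x 1 * y 3 + x 3 * y 1) - (x 2 * y 3 + x 3 * y 2) -
      (x 3 * y 4 + x 4 * y 3) - (x 4 * y 5 + x 5 * y 4) - (x 5 * y 6 + x 6 * y 5) -
      (x 6 * y 7 + x 7 * y 6) := by
  unfold bf
  simp [CartanMatrix.E₈, Fin.sum_univ_succ]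
  ring

theorem D4_eq : CartanMatrix.D 4 = !![2, -1, 0, 0; -1, 2, -1, -1; 0, -1, 2, 0; 0, -1, 0, 2] := by
  decide

theorem bf_D4 {R : Type*} [CommRing R] (x y : Fin 4 → R) :
    bf (CartanMatrix.D 4) x y =
      2 * (x 0 * y 0 + x 1 * y 1 + x 2 * y 2 + x 3 * y 3) - (x 0 * y 1 + x 1 * y 0) -
      (x 1 * y 2 + x 2 * y 1) - (x 1 * y 3 + x 3 * y 1) := by
  rw [D4_eq]
  unfold bf
  simp [Fin.sum_univ_succ]
  ring

theorem E8_pos (x : Fin 8 → ℝ) : 0 ≤ bf CartanMatrix.E₈ x x := by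
  rw [bf_E8]
  nlinarith [sq_nonneg (x 7 - x 6 / 2), sq_nonneg (x 6 - 2 / 3 * x 5),
    sq_nonneg (x 5 - 3 / 4 * x 4), sq_nonneg (x 4 - 4 / 5 * x 3), sq_nonneg (x 0 - x 2 / 2),
    sq_nonneg (x 2 - 2 / 3 * x 3), sq_nonneg (x 1 - x 3 / 2), sq_nonneg (x 3)]

theorem E8_zero (x : Fin 8 → ℝ) (h : bf CartanMatrix.E₈ x x = 0) : x = 0 := by
  rw [bf_E8] at h
  have e : 2 * (x 7 - x 6 / 2) ^ 2 + 3 / 2 * (x 6 - 2 / 3 * x 5) ^ 2 +
      4 / 3 * (x 5 - 3 / 4 * x 4) ^ 2 + 5 / 4 * (x 4 - 4 / 5 * x 3) ^ 2 +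
      2 * (x 0 - x 2 / 2) ^ 2 + 3 / 2 * (x 2 - 2 / 3 * x 3) ^ 2 + 2 * (x 1 - x 3 / 2) ^ 2 +
      1 / 30 * (x 3) ^ 2 = 0 := by
    rw [← h]; ring
  have h1 := sq_nonneg (x 7 - x 6 / 2)
  have h2 := sq_nonneg (x 6 - 2 / 3 * x 5)
  have h3 := sq_nonneg (x 5 - 3 / 4 * x 4)
  have h4 := sq_nonneg (x 4 - 4 / 5 * x 3)
  have h5 := sq_nonneg (x 0 - x 2 / 2)
  have h6 := sq_nonneg (x 2 - 2 / 3 * x 3)
  have h7 := sq_nonneg (x 1 - x 3 / 2)
  have h8 := sq_nonneg (x 3)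
  have k3 : x 3 = 0 := by
    apply pow_eq_zero_iff (n := 2) (by norm_num) |>.1; linarith
  have k1 : x 1 = 0 := by
    have : (x 1 - x 3 / 2) ^ 2 = 0 := by linarith
    have := pow_eq_zero_iff (n := 2) (by norm_num) |>.1 this
    linarith
  have k2 : x 2 = 0 := by
    have : (x 2 - 2 / 3 * x 3) ^ 2 = 0 := by linarith
    have := pow_eq_zero_iff (n := 2) (by norm_num) |>.1 this
    linarith
  have k0 : x 0 = 0 := by
    have : (x 0 - x 2 / 2) ^ 2 = 0 := by linarith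
    have := pow_eq_zero_iff (n := 2) (by norm_num) |>.1 this
    linarith
  have k4 : x 4 = 0 := by
    have : (x 4 - 4 / 5 * x 3) ^ 2 = 0 := by linarith
    have := pow_eq_zero_iff (n := 2) (by norm_num) |>.1 this
    linarith
  have k5 : x 5 = 0 := by
    have : (x 5 - 3 / 4 * x 4) ^ 2 = 0 := by linarith
    have := pow_eq_zero_iff (n := 2) (by norm_num) |>.1 this
    linarith
  have k6 : x 6 = 0 := by
    have : (x 6 - 2 / 3 * x 5) ^ 2 = 0 := by linarith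
    have := pow_eq_zero_iff (n := 2) (by norm_num) |>.1 this
    linarith
  have k7 : x 7 = 0 := by
    have : (x 7 - x 6 / 2) ^ 2 = 0 := by linarith
    have := pow_eq_zero_iff (n := 2) (by norm_num) |>.1 this
    linarith
  funext i
  fin_cases i <;> assumption

theorem D4_pos (x : Fin 4 → ℝ) : 0 ≤ bf (CartanMatrix.D 4) x x := by
  rw [bf_D4]
  nlinarith [sq_nonneg (x 0 - x 1 / 2), sq_nonneg (x 2 - x 1 / 2), sq_nonneg (x 3 - x 1 / 2),
    sq_nonneg (x 1)]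

theorem D4_zero (x : Fin 4 → ℝ) (h : bf (CartanMatrix.D 4) x x = 0) : x = 0 := by
  rw [bf_D4] at h
  have e : 2 * (x 0 - x 1 / 2) ^ 2 + 2 * (x 2 - x 1 / 2) ^ 2 + 2 * (x 3 - x 1 / 2) ^ 2 +
      1 / 2 * (x 1) ^ 2 = 0 := by
    rw [← h]; ring
  have h1 := sq_nonneg (x 0 - x 1 / 2)
  have h2 := sq_nonneg (x 2 - x 1 / 2)
  have h3 := sq_nonneg (x 3 - x 1 / 2)
  have h4 := sq_nonneg (x 1)
  have k1 : x 1 = 0 := by
    apply pow_eq_zero_iff (n := 2) (by norm_num) |>.1; linarith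
  have k0 : x 0 = 0 := by
    have : (x 0 - x 1 / 2) ^ 2 = 0 := by linarith
    have := pow_eq_zero_iff (n := 2) (by norm_num) |>.1 this
    linarith
  have k2 : x 2 = 0 := by
    have : (x 2 - x 1 / 2) ^ 2 = 0 := by linarith
    have := pow_eq_zero_iff (n := 2) (by norm_num) |>.1 this
    linarith
  have k3 : x 3 = 0 := by
    have : (x 3 - x 1 / 2) ^ 2 = 0 := by linarith
    have := pow_eq_zero_iff (n := 2) (by norm_num) |>.1 this
    linarith
  funext i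
  fin_cases i <;> assumption

theorem D4_det : (CartanMatrix.D 4).det = 4 := by
  rw [D4_eq]
  simp [Matrix.det_succ_row_zero, Fin.sum_univ_succ, Fin.succAbove]

theorem jobEED : JobGenusEED := by
  refine ⟨⟨?_, ?_, ?_, ?_⟩, ?_⟩
  · unfold gramEED
    rw [Matrix.IsSymm, Matrix.fromBlocks_transpose, Matrix.fromBlocks_transpose,
      CartanMatrix.E₈_transpose, CartanMatrix.D_transpose]
    simp
  · rintro (i | i | i)
    · simp only [gramEED, Matrix.fromBlocks_apply₁₁, CartanMatrix.E₈_diag]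
      decide
    · simp only [gramEED, Matrix.fromBlocks_apply₂₂, Matrix.fromBlocks_apply₁₁,
        CartanMatrix.E₈_diag]
      decide
    · simp only [gramEED, Matrix.fromBlocks_apply₂₂, D4_eq]
      fin_cases i <;> decide
  · unfold gramEED
    rw [Matrix.det_fromBlocks_zero₂₁, Matrix.det_fromBlocks_zero₂₁, CartanMatrix.E₈_det, D4_det]
    norm_num
  · refine ⟨Sum.elim 0 (Sum.elim 0 ![1, 0, 1, 0]), Sum.elim 0 (Sum.elim 0 ![0, 0, 1, 1]),
      0, 0, 0, ?_, ?_, ?_, ?_⟩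
    · unfold gramEED
      rw [bf_blocks, bf_blocks, bf_E8, bf_E8, bf_D4]
      simp
    · unfold gramEED
      rw [bf_blocks, bf_blocks, bf_E8, bf_E8, bf_D4]
      simp
    · unfold gramEED
      rw [bf_blocks, bf_blocks, bf_E8, bf_E8, bf_D4]
      simp
    · intro v
      refine ⟨⟨v (.inr (.inr 0)) + v (.inr (.inr 2)) - v (.inr (.inr 1)), ?_⟩,
        ⟨v (.inr (.inr 2)) + v (.inr (.inr 3)) - v (.inr (.inr 1)), ?_⟩⟩
      · unfold gramEED
        rw [bf_blocks, bf_blocks, bf_E8, bf_E8, bf_D4]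
        simp
        ring
      · unfold gramEED
        rw [bf_blocks, bf_blocks, bf_E8, bf_E8, bf_D4]
        simp
        ring
  · intro x hx
    unfold gramEED
    rw [bf_blocks, bf_blocks]
    have h1 := E8_pos (fun i => x (.inl i))
    have h2 := E8_pos (fun i => x (.inr (.inl i)))
    have h3 := D4_pos (fun i => x (.inr (.inr i)))
    by_contra hle
    push Not at hle
    apply hx
    have e1 := E8_zero _ (le_antisymm (by linarith) h1)
    have e2 := E8_zero _ (le_antisymm (by linarith) h2)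
    have e3 := D4_zero _ (le_antisymm (by linarith) h3)
    funext i
    rcases i with i | i | i
    · exact congrFun e1 i
    · exact congrFun e2 i
    · exact congrFun e3 i

end Pool.Agent.U398.RL
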