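import Pool.Agent.U398.RL.Grow5
import Pool.Agent.U398.RL.Tube6
import Pool.Agent.Y155.RL.VD
import Pool.Agent.Y155.RL.DIV
import Pool.Agent.Y683.RL.Kd
import Pool.Agent.Y683.RL.Fj

set_option autoImplicit false

/-!
# Project RL (MP_f1d0b6_nt): assembly from the jobs
-/

namespace Pool.Agent.U398.RL

open Complex Set Finset Topology Pool.Agent.Y813.RL
open Pool.Agent.Y683.RL (HP fco)
open Pool.Agent.Y813.Refl (quadric IsReflectiveLattice gramM coneM)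

noncomputable section

variable {A : Matrix (Fin 20) (Fin 20) ℤ} {c : ℂ → (Fin 20 → ℂ) → ℂ}

theorem vf_holo (hT1 : JobTheta1) (hA : PosSymm A) (hc : JacobiZero A c) (μ : Fin 20 → ℤ) :
    DifferentiableOn ℂ (vf A c μ) {τ | 0 < τ.im} := by
  obtain ⟨t1, -, -, -, -⟩ := hT1 A c hA hc
  have h1 : DifferentiableOn ℂ (fun τ : ℂ => ee (-(τ * (bd A μ μ : ℂ) / 2))) {τ | 0 < τ.im} := by
    refine (Y683.RL.ee_diff.comp ?_).differentiableOn
    fun_prop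
  exact h1.mul (t1 μ)

theorem vf_T (hT1 : JobTheta1) (hA : PosSymm A) (hc : JacobiZero A c) (μ : Fin 20 → ℤ) (τ : ℂ)
    (hτ : 0 < τ.im) : vf A c μ (τ + 1) = ee (-((bd A μ μ : ℂ) / 2)) * vf A c μ τ := by
  obtain ⟨-, t2, -, -, -⟩ := hT1 A c hA hc
  unfold vf
  rw [t2 μ τ hτ, ← mul_assoc, ← Y813.RL.ee_add]
  congr 2
  ring

theorem ee_norm_real (x : ℝ) : ‖ee (x : ℂ)‖ = 1 := by
  rw [norm_ee, Complex.ofReal_im]
  simp

theorem vf_eq_zero_all (hT1 : JobTheta1) (hT2 : JobTheta2) (hFF : JobFinFour) (hVV : JobVV)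
    (hA : PosSymm A) (hc : JacobiZero A c) {q : ℝ} (hq : q < 5 / 6)
    (hgr : ∀ μ, ∃ B : ℝ, ∀ τ : ℂ, 1 / 2 ≤ τ.im →
      ‖vf A c μ τ‖ ≤ B * Real.exp (2 * Real.pi * q * τ.im)) :
    ∀ μ (τ : ℂ), 0 < τ.im → vf A c μ τ = 0 := by
  classical
  obtain ⟨hdet, R, hR, -, huni⟩ := hFF A hA
  obtain ⟨-, -, -, t4, -⟩ := hT1 A c hA hc
  have hdetr : (0 : ℝ) < (A.det : ℝ) := by exact_mod_cast hdet
  have hRz : ∀ τ : ℂ, 0 < τ.im → ∀ i : {μ // μ ∈ R}, vf A c i.1 τ = 0 := by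
    choose B hB using hgr
    refine hVV {μ // μ ∈ R} 10 (-q) (fun τ i => vf A c i.1 τ) ?_ ?_ ?_ ?_ ?_
    · push_cast
      linarith
    · rw [differentiableOn_pi]
      intro i
      exact vf_holo hT1 hA hc i.1
    · intro τ hτ
      refine Finset.sum_congr rfl fun i _ => ?_
      rw [vf_T hT1 hA hc i.1 τ hτ, norm_mul]
      have : -((bd A i.1 i.1 : ℂ) / 2) = ((-(bd A i.1 i.1 / 2) : ℝ) : ℂ) := by push_cast; ring
      rw [this, ee_norm_real, one_mul]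
    · intro τ hτ
      have h1 := huni (fun ρ => vf A c ρ (-1 / τ))
      have h2 : ∀ μ, ‖vf A c μ τ‖ ^ 2 = ‖τ‖ ^ 20 / (A.det : ℝ) *
          ‖∑ ρ ∈ R, ee (-(bd A μ ρ : ℂ)) * vf A c ρ (-1 / τ)‖ ^ 2 := by
        intro μ
        rw [hT2 A c R hA hc hR μ τ hτ, norm_mul, mul_pow, norm_div, norm_neg, norm_pow,
          Complex.norm_real, Real.norm_of_nonneg (Real.sqrt_nonneg _), div_pow,
          Real.sq_sqrt hdetr.le, ← pow_mul]
      have h3 : ∑ i : {μ // μ ∈ R}, ‖vf A c i.1 τ‖ ^ 2 = ∑ μ ∈ R, ‖vf A c μ τ‖ ^ 2 :=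
        Finset.sum_coe_sort R (fun μ => ‖vf A c μ τ‖ ^ 2)
      have h4 : ∑ i : {μ // μ ∈ R}, ‖vf A c i.1 (-1 / τ)‖ ^ 2 =
          ∑ μ ∈ R, ‖vf A c μ (-1 / τ)‖ ^ 2 :=
        Finset.sum_coe_sort R (fun μ => ‖vf A c μ (-1 / τ)‖ ^ 2)
      rw [h3, h4, Finset.sum_congr rfl fun μ _ => h2 μ, ← Finset.mul_sum, h1]
      have h5 : (A.det : ℝ) ≠ 0 := hdetr.ne'
      rw [← mul_assoc, div_mul_cancel₀ _ h5]
    · refine ⟨∑ i : {μ // μ ∈ R}, |B i.1|, fun τ hτ i => ?_⟩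
      have e : -(2 * Real.pi * (-q) * τ.im) = 2 * Real.pi * q * τ.im := by ring
      rw [e]
      refine (hB i.1 τ hτ).trans ?_
      gcongr
      exact (le_abs_self _).trans (Finset.single_le_sum (f := fun i : {μ // μ ∈ R} => |B i.1|)
        (fun i _ => abs_nonneg _) (Finset.mem_univ i))
  intro μ τ hτ
  obtain ⟨ρ, ⟨hρ, v, hv⟩, -⟩ := hR μ
  rw [hv, t4 ρ v τ hτ]
  exact hRz τ hτ ⟨ρ, hρ⟩

theorem c_eq_zero (hT1 : JobTheta1) (hA : PosSymm A) (hc : JacobiZero A c)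
    (h0 : ∀ μ (τ : ℂ), 0 < τ.im → vf A c μ τ = 0) (τ : ℂ) (z : Fin 20 → ℂ) (hτ : 0 < τ.im) :
    c τ z = 0 := by
  obtain ⟨-, -, -, -, t5⟩ := hT1 A c hA hc
  have h1 : ∀ μ, fc c μ τ = 0 := by
    intro μ
    have := h0 μ τ hτ
    unfold vf at this
    exact (mul_eq_zero.1 this).resolve_left (Y813.RL.ee_ne_zero _)
  have h2 := t5 τ z hτ
  simp only [h1, zero_mul] at h2
  exact h2.unique hasSum_zero

variable {G : Matrix (Fin 20) (Fin 20) ℤ} {k : ℤ} {F : TP → ℂ}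
  {φ : ℕ → ℂ × (Fin 20 → ℂ) → ℂ} {C m : ℕ}

/-- the Jacobi form is nonzero -/
theorem c_ne (H : CM G k F φ C m)
    (hcq : ∀ τ z, 0 < τ.im → φ (C + m) (τ, z) = φ C (τ, z) * c τ z) :
    ¬ ∀ (τ : ℂ) (z : Fin 20 → ℂ), 0 < τ.im → c τ z = 0 := by
  intro h0
  obtain ⟨p, hp, hne⟩ := H.hne2
  apply hne
  have := hcq p.1 p.2 hp
  rw [h0 p.1 p.2 hp, mul_zero] at this
  exact this

/-- the index is one -/
theorem index_one (hT1 : JobTheta1) (hT2 : JobTheta2) (hFF : JobFinFour) (hVV : JobVV)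
    (h : PosSymm G) (H : CM G k F φ C m) (hc : JacobiZero ((m : ℤ) • G) c)
    (hcq : ∀ τ z, 0 < τ.im → φ (C + m) (τ, z) = φ C (τ, z) * c τ z) : m = 1 := by
  by_contra hne
  have hm2 : 2 ≤ m := by
    have := H.hm
    omega
  have hA := posSymm_smul h H.hm
  refine c_ne H hcq (c_eq_zero hT1 hA hc (vf_eq_zero_all hT1 hT2 hFF hVV hA hc (q := 4 / 5)
    (by norm_num) fun μ => ?_))
  exact vf_growth hT1 hA hc fun n hn =>
    pole_two Y155.RL.bc Y155.RL.vd Y683.RL.jobKD hT1 h H hc hcq hm2 μ n hn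

/-- a shortest representative of a class -/
theorem exists_min (h : PosSymm G) (μ : Fin 20 → ℤ) : ∃ v : Fin 20 → ℤ, ∀ w : Fin 20 → ℤ,
    bd G (μ + G.mulVec v) (μ + G.mulVec v) ≤ bd G (μ + G.mulVec w) (μ + G.mulVec w) := by
  classical
  set S : Set (Fin 20 → ℤ) := {ν | (∃ v, ν = μ + G.mulVec v) ∧ bd G ν ν ≤ bd G μ μ} with hS
  have hfin : S.Finite := (short_finite h (bd G μ μ)).subset fun ν hν => hν.2
  have hne : S.Nonempty := ⟨μ, ⟨0, by simp⟩, le_rfl⟩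
  obtain ⟨ν, hν, hmin⟩ := hfin.exists_minimalFor (fun ν => bd G ν ν) S hne
  obtain ⟨⟨v, rfl⟩, hle⟩ := hν
  refine ⟨v, fun w => ?_⟩
  by_contra hlt
  push Not at hlt
  have hw : μ + G.mulVec w ∈ S := ⟨⟨w, rfl⟩, hlt.le.trans hle⟩
  exact absurd (hmin hw hlt.le) (not_le.2 hlt)

/-- **the theorem on the tube domain** -/
theorem main_tube (hT1 : JobTheta1) (hT2 : JobTheta2) (hFF : JobFinFour) (hVV : JobVV)
    (hODE : JobODE) (h : PosSymm G) (he : ∀ i, Even (G i i)) (hF : TubeForm G k F) :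
    (∀ μ, (¬ ∃ v : Fin 20 → ℤ, μ = G.mulVec v) → ∃ k : ℤ, bd G μ μ = 2 * k + 1) ∧ G.det ≠ 1 := by
  obtain ⟨φ, hφ⟩ := exists_FJD Y683.RL.jobFJ Y683.RL.jobKD h hF
  obtain ⟨C, m, hm, hC, hne, hmid, hne2⟩ := exists_second h hF hφ
  have H : CM G k F φ C m := ⟨hF, hφ, hm, hC, hne, hmid, hne2⟩
  obtain ⟨c, hc, hcq⟩ := H.exists_jacobi Y155.RL.bc Y155.RL.div h
  have hm1 := index_one hT1 hT2 hFF hVV h H hc hcq
  subst hm1
  have hG1 : (((1 : ℕ) : ℤ) • G) = G := by simp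
  have hc' : JacobiZero G c := by rwa [hG1] at hc
  obtain ⟨hdet, R, hR, -, huni⟩ := hFF G h
  have ht1 := hT1 G c h hc'
  have hVV10 : VV10 G R (vf G c) := by
    refine ⟨fun μ => vf_holo hT1 h hc' μ, fun μ v τ hτ => ht1.2.2.2.1 μ v τ hτ,
      fun μ τ hτ => vf_T hT1 h hc' μ τ hτ, fun μ τ hτ => hT2 G c R h hc' hR μ τ hτ⟩
  refine hODE G R (vf G c) h he hR hVV10 ?_ ?_ ?_
  · intro μ
    obtain ⟨B, hB⟩ := vf_growth hT1 h hc' (μ := μ) (q := 1) fun n hn =>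
      pole_one Y155.RL.bc Y683.RL.jobKD hT1 h H hc hcq μ n hn
    refine ⟨B, fun τ hτ => ?_⟩
    have := hB τ hτ
    rwa [mul_one] at this
  · intro μ hμ
    obtain ⟨v, hv⟩ := exists_min h μ
    set ν := μ + G.mulVec v with hν
    have hν0 : ν ≠ 0 := by
      intro h0
      apply hμ
      refine ⟨-v, ?_⟩
      rw [Matrix.mulVec_neg]
      exact eq_neg_of_add_eq_zero_left (hν ▸ h0)
    have hpos : 0 < bd G ν ν := by
      rw [← bf_lam_lam h]
      refine h.pos _ ?_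
      intro h0
      apply hν0
      funext i
      have := mulVec_lam h ν i
      rw [h0, bf_zero_right] at this
      simpa using this
    have hmin : ∀ w : Fin 20 → ℤ, bd G ν ν ≤ bf G ((fun i => (w i : ℝ)) - lam G ν)
        ((fun i => (w i : ℝ)) - lam G ν) := by
      intro w
      have h1 := hv (v - w)
      have h2 : μ + G.mulVec (v - w) = ν - G.mulVec w := by
        rw [Matrix.mulVec_sub, hν]
        abel
      rw [h2] at h1
      refine h1.trans (le_of_eq ?_)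
      rw [← bf_lam_lam h]
      have h3 : lam G (ν - G.mulVec w) = lam G ν - fun i => (w i : ℝ) := by
        rw [← lam_mulVec h w]
        unfold lam
        rw [← Matrix.mulVec_sub]
        congr 1
        funext j
        simp
      rw [h3]
      simp only [bf_sub_left, bf_sub_right]
      ring
    obtain ⟨B, hB⟩ := vf_growth hT1 h hc' (μ := ν) (q := 1 / 2) fun n hn =>
      pole_half Y155.RL.bc Y683.RL.jobKD hT1 h H hc hcq ν hpos hmin n hn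
    refine ⟨B, fun τ hτ => ?_⟩
    have h4 := hB τ hτ
    have h5 : vf G c ν τ = vf G c μ τ := ht1.2.2.2.1 μ v τ (by linarith)
    rw [h5] at h4
    refine h4.trans (le_of_eq ?_)
    congr 2
    ring
  · by_contra hcon
    push Not at hcon
    exact c_ne H hcq (c_eq_zero hT1 h hc' hcon)

/-- **the assembly** -/
theorem main (hT1 : JobTheta1) (hT2 : JobTheta2) (hFF : JobFinFour) (hVV : JobVV)
    (hODE : JobODE) (hG : JobGenus) (h : PosSymm G) (he : ∀ i, Even (G i i))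
    {Z₀ : Fin 4 ⊕ Fin 20 → ℂ} (hZ₀ : Z₀ ∈ quadric (gramM G))
    (hR : IsReflectiveLattice (gramM G) (connectedComponentIn (quadric (gramM G)) Z₀)) :
    Pool.Agent.Y813.Refl.SameGenus G Pool.Agent.Y813.Refl.gramEED := by
  obtain ⟨k, F, hF⟩ := tube h he (reflective_component h hZ₀ hR)
  obtain ⟨h1, h2⟩ := main_tube hT1 hT2 hFF hVV hODE h he hF
  exact hG G h he h1 h2

end

end Pool.Agent.U398.RL
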