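import Pool.Agent.U398.RL.Stm2
import Pool.Agent.Y813.RL.Wall

set_option autoImplicit false

/-!
# The discriminant group
-/

namespace Pool.Agent.U398.RL

open Pool.Agent.Y813.RL

variable {G : Matrix (Fin 20) (Fin 20) ℤ}

theorem lam_add (μ ν : Fin 20 → ℤ) : lam G (μ + ν) = lam G μ + lam G ν := by
  unfold lam
  rw [← Matrix.mulVec_add]
  congr 1
  funext j
  simp

theorem bd_comm (h : PosSymm G) (μ ν : Fin 20 → ℤ) : bd G μ ν = bd G ν μ := by
  rw [← bf_lam_lam h, ← bf_lam_lam h, bf_comm h.symm]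

theorem bd_add_left (h : PosSymm G) (μ ν ρ : Fin 20 → ℤ) :
    bd G (μ + ν) ρ = bd G μ ρ + bd G ν ρ := by
  rw [← bf_lam_lam h, ← bf_lam_lam h, ← bf_lam_lam h, lam_add, bf_add_left]

theorem bd_add_right (h : PosSymm G) (μ ν ρ : Fin 20 → ℤ) :
    bd G ρ (μ + ν) = bd G ρ μ + bd G ρ ν := by
  rw [bd_comm h, bd_add_left h, bd_comm h μ, bd_comm h ν]

theorem bd_G (h : PosSymm G) (μ v : Fin 20 → ℤ) : bd G μ (G.mulVec v) = ((dt μ v : ℤ) : ℝ) := by
  rw [← bf_lam_lam h, lam_mulVec h, bf_lam h]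
  unfold dt
  push_cast
  rfl

theorem bd_self_add (h : PosSymm G) (μ ν : Fin 20 → ℤ) :
    bd G (μ + ν) (μ + ν) = bd G μ μ + bd G ν ν + 2 * bd G μ ν := by
  rw [bd_add_left h, bd_add_right h, bd_add_right h, bd_comm h ν μ]
  ring

/-- membership in the lattice -/
def Im (G : Matrix (Fin 20) (Fin 20) ℤ) (μ : Fin 20 → ℤ) : Prop :=
  ∃ v : Fin 20 → ℤ, μ = G.mulVec v

theorem Im.add {μ ν : Fin 20 → ℤ} (h1 : Im G μ) (h2 : Im G ν) : Im G (μ + ν) := by
  obtain ⟨v, rfl⟩ := h1
  obtain ⟨w, rfl⟩ := h2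
  exact ⟨v + w, by rw [Matrix.mulVec_add]⟩

theorem Im.sub {μ ν : Fin 20 → ℤ} (h1 : Im G μ) (h2 : Im G ν) : Im G (μ - ν) := by
  obtain ⟨v, rfl⟩ := h1
  obtain ⟨w, rfl⟩ := h2
  exact ⟨v - w, by rw [Matrix.mulVec_sub]⟩

/-- **GENUS A** -/
theorem jobGenusA (hFF : JobFinFour) : JobGenusA := by
  classical
  intro G h he hq hdet
  obtain ⟨hpos, R, hR, hcard, -⟩ := hFF G h
  have hq' : ∀ μ, ¬ Im G μ → ∃ k : ℤ, bd G μ μ = 2 * k + 1 := hq
  -- doubling
  have hdouble : ∀ μ, Im G (μ + μ) := by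
    intro μ
    by_contra hn
    have hμ : ¬ Im G μ := fun h1 => hn (h1.add h1)
    obtain ⟨k, hk⟩ := hq' _ hn
    obtain ⟨l, hl⟩ := hq' _ hμ
    rw [bd_self_add h, hl] at hk
    have : (2 * l + 1 + (2 * l + 1) + 2 * (2 * l + 1) : ℤ) = 2 * k + 1 := by exact_mod_cast hk
    omega
  -- products
  have hprod : ∀ μ ν, ¬ Im G μ → ¬ Im G ν → ¬ Im G (μ + ν) →
      ∃ k : ℤ, 2 * bd G μ ν = 2 * k + 1 := by
    intro μ ν h1 h2 h3
    obtain ⟨a, ha⟩ := hq' _ h1
    obtain ⟨b, hb⟩ := hq' _ h2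
    obtain ⟨c, hc⟩ := hq' _ h3
    rw [bd_self_add h, ha, hb] at hc
    refine ⟨c - a - b - 1, ?_⟩
    push_cast
    linarith
  -- a nonzero class
  obtain ⟨μ, hμ⟩ : ∃ μ, ¬ Im G μ := by
    by_contra hall
    push Not at hall
    apply hdet
    choose v hv using hall
    set B : Matrix (Fin 20) (Fin 20) ℤ := Matrix.of fun i j => v (Pi.single j 1) i with hB
    have h1 : G * B = 1 := by
      ext i j
      have h2 := congrFun (hv (Pi.single j 1)) i
      rw [Matrix.mul_apply]
      have h3 : ∑ l, G i l * B l j = G.mulVec (v (Pi.single j 1)) i := rfl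
      rw [h3, ← h2, Matrix.one_apply, Pi.single_apply]
    have h2 : G.det * B.det = 1 := by rw [← Matrix.det_mul, h1, Matrix.det_one]
    rcases Int.eq_one_or_neg_one_of_mul_eq_one h2 with h3 | h3
    · exact h3
    · rw [h3] at hpos
      norm_num at hpos
  obtain ⟨x, hx⟩ := hdouble μ
  -- an odd coordinate
  obtain ⟨i, hi⟩ : ∃ i, ¬ (2 : ℤ) ∣ x i := by
    by_contra hall
    push Not at hall
    choose w hw using hall
    apply hμ
    refine ⟨w, ?_⟩
    have h1 : x = w + w := by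
      funext i
      rw [hw i]
      simp only [Pi.add_apply]
      ring
    rw [h1, Matrix.mulVec_add] at hx
    funext j
    have := congrFun hx j
    simp only [Pi.add_apply] at this
    omega
  set ν : Fin 20 → ℤ := Pi.single i 1 with hν
  have hodd : 2 * bd G μ ν = x i := by
    have h1 : 2 * bd G μ ν = bd G ν (μ + μ) := by
      rw [bd_add_right h, bd_comm h ν μ]
      ring
    rw [h1, hx, bd_G h]
    congr 1
    simp [dt, hν, Pi.single_apply]
  obtain ⟨m, hm⟩ : ∃ m : ℤ, x i = 2 * m + 1 := ⟨x i / 2, by omega⟩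
  have hνIm : ¬ Im G ν := by
    rintro ⟨w, hw⟩
    rw [hw, bd_G h, hm] at hodd
    have : 2 * dt μ w = 2 * m + 1 := by exact_mod_cast hodd
    omega
  have hμν : ¬ Im G (μ + ν) := by
    rintro ⟨w, hw⟩
    obtain ⟨k, hk⟩ := hq' μ hμ
    have h1 : bd G μ (μ + ν) = ((dt μ w : ℤ) : ℝ) := by rw [hw, bd_G h]
    rw [bd_add_right h, hk] at h1
    have h2 : (2 * (2 * k + 1) + x i : ℝ) = 2 * (dt μ w : ℤ) := by
      rw [← hodd, ← h1]
      ring
    rw [hm] at h2
    have : (2 * (2 * k + 1) + (2 * m + 1) : ℤ) = 2 * dt μ w := by exact_mod_cast h2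
    omega
  -- all classes
  have hall : ∀ ρ, Im G ρ ∨ Im G (ρ + μ) ∨ Im G (ρ + ν) ∨ Im G (ρ + (μ + ν)) := by
    intro ρ
    by_contra hcon
    push Not at hcon
    obtain ⟨c1, c2, c3, c4⟩ := hcon
    obtain ⟨a, ha⟩ := hprod ρ μ c1 hμ c2
    obtain ⟨b, hb⟩ := hprod ρ ν c1 hνIm c3
    obtain ⟨c, hc⟩ := hprod ρ (μ + ν) c1 hμν c4
    rw [bd_add_right h] at hc
    have : (2 * a + 1 + (2 * b + 1) : ℤ) = 2 * c + 1 := by
      have : (2 * a + 1 + (2 * b + 1) : ℝ) = 2 * c + 1 := by linarith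
      exact_mod_cast this
    omega
  -- the number of classes
  have hrep : ∀ ρ, ∃! r, r ∈ R ∧ Im G (ρ - r) := by
    intro ρ
    obtain ⟨r, ⟨hr, v, hv⟩, huniq⟩ := hR ρ
    refine ⟨r, ⟨hr, v, by rw [hv]; abel⟩, ?_⟩
    rintro r' ⟨hr', v', hv'⟩
    exact huniq r' ⟨hr', v', by rw [← hv']; abel⟩
  have hnegIm : ∀ ρ, Im G ρ → Im G (-ρ) := by
    rintro ρ ⟨v, hv⟩
    exact ⟨-v, by rw [Matrix.mulVec_neg, hv]⟩
  have hcard4 : R.card = 4 := by
    choose rep hrepR hrepU using fun ρ => (hrep ρ).exists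
    have hequiv : ∀ ρ ρ', Im G (ρ - ρ') → rep ρ = rep ρ' := by
      intro ρ ρ' h1
      refine (hrep ρ).unique ⟨hrepR ρ, hrepU ρ⟩ ⟨hrepR ρ', ?_⟩
      have : ρ - rep ρ' = (ρ - ρ') + (ρ' - rep ρ') := by abel
      rw [this]
      exact h1.add (hrepU ρ')
    have hequiv' : ∀ ρ ρ', rep ρ = rep ρ' → Im G (ρ - ρ') := by
      intro ρ ρ' h1
      have : ρ - ρ' = (ρ - rep ρ) - (ρ' - rep ρ') := by rw [h1]; abel
      rw [this]
      exact (hrepU ρ).sub (hrepU ρ')
    have hself : ∀ r ∈ R, rep r = r := by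
      intro r hr
      refine (hrep r).unique ⟨hrepR r, hrepU r⟩ ⟨hr, ?_⟩
      rw [sub_self]
      exact ⟨0, by simp⟩
    have hRim : R = {rep 0, rep μ, rep ν, rep (μ + ν)} := by
      ext r
      simp only [Finset.mem_insert, Finset.mem_singleton]
      constructor
      · intro hr
        rw [← hself r hr]
        rcases hall r with h1 | h1 | h1 | h1
        · left
          exact hequiv _ _ (by rwa [sub_zero])
        · right; left
          refine hequiv _ _ ?_
          have : r - μ = (r + μ) - (μ + μ) := by abel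
          rw [this]
          exact h1.sub (hdouble μ)
        · right; right; left
          refine hequiv _ _ ?_
          have : r - ν = (r + ν) - (ν + ν) := by abel
          rw [this]
          exact h1.sub (hdouble ν)
        · right; right; right
          refine hequiv _ _ ?_
          have : r - (μ + ν) = (r + (μ + ν)) - ((μ + ν) + (μ + ν)) := by abel
          rw [this]
          exact h1.sub (hdouble (μ + ν))
      · rintro (rfl | rfl | rfl | rfl) <;> exact hrepR _
    have n1 : rep 0 ≠ rep μ := by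
      intro h1
      have := hequiv' _ _ h1.symm
      rw [sub_zero] at this
      exact hμ this
    have n2 : rep 0 ≠ rep ν := by
      intro h1
      have := hequiv' _ _ h1.symm
      rw [sub_zero] at this
      exact hνIm this
    have n3 : rep 0 ≠ rep (μ + ν) := by
      intro h1
      have := hequiv' _ _ h1.symm
      rw [sub_zero] at this
      exact hμν this
    have n4 : rep μ ≠ rep ν := by
      intro h1
      have := hequiv' _ _ h1
      apply hμν
      have e : μ + ν = (μ - ν) + (ν + ν) := by abel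
      rw [e]
      exact this.add (hdouble ν)
    have n5 : rep μ ≠ rep (μ + ν) := by
      intro h1
      have := hequiv' _ _ h1
      apply hνIm
      have e : ν = -(μ - (μ + ν)) := by abel
      rw [e]
      exact hnegIm _ this
    have n6 : rep ν ≠ rep (μ + ν) := by
      intro h1
      have := hequiv' _ _ h1
      apply hμ
      have e : μ = -(ν - (μ + ν)) := by abel
      rw [e]
      exact hnegIm _ this
    rw [hRim, Finset.card_insert_of_notMem, Finset.card_insert_of_notMem,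
      Finset.card_insert_of_notMem, Finset.card_singleton]
    · simpa using n6
    · simp only [Finset.mem_insert, Finset.mem_singleton, not_or]
      exact ⟨n4, n5⟩
    · simp only [Finset.mem_insert, Finset.mem_singleton, not_or]
      exact ⟨n1, n2, n3⟩
  have hdet4 : G.det = 4 := by
    rw [← hcard, hcard4]
    norm_num
  obtain ⟨y, hy⟩ := hdouble ν
  obtain ⟨k, hk⟩ := hq' μ hμ
  obtain ⟨l, hl⟩ := hq' ν hνIm
  have hbf : ∀ v w : Fin 20 → ℤ, ((bf G v w : ℤ) : ℝ) = bd G (G.mulVec v) (G.mulVec w) := by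
    intro v w
    rw [← bf_lam_lam h, lam_mulVec h, lam_mulVec h, bf_intCast]
  refine ⟨h.symm, he, hdet4, x, y, k, l, m, ?_, ?_, ?_, ?_⟩
  · have h1 := hbf x x
    rw [← hx, bd_self_add h, hk] at h1
    have : ((bf G x x : ℤ) : ℝ) = ((4 * (2 * k + 1) : ℤ) : ℝ) := by
      rw [h1]; push_cast; ring
    exact_mod_cast this
  · have h1 := hbf y y
    rw [← hy, bd_self_add h, hl] at h1
    have : ((bf G y y : ℤ) : ℝ) = ((4 * (2 * l + 1) : ℤ) : ℝ) := by
      rw [h1]; push_cast; ring
    exact_mod_cast this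
  · have h1 := hbf x y
    rw [← hx, ← hy, bd_add_left h, bd_add_right h] at h1
    have : ((bf G x y : ℤ) : ℝ) = ((2 * (2 * m + 1) : ℤ) : ℝ) := by
      rw [h1]
      rw [hm] at hodd
      push_cast at hodd ⊢
      linarith
    exact_mod_cast this
  · intro v
    constructor
    · refine ⟨dt μ v, ?_⟩
      have h1 := hbf x v
      rw [← hx, bd_G h] at h1
      have h2 : bf G x v = dt (μ + μ) v := by exact_mod_cast h1
      rw [h2]
      simp only [dt, Pi.add_apply, Finset.mul_sum]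
      refine Finset.sum_congr rfl fun i _ => ?_
      simp only [Int.cast_id]
      ring
    · refine ⟨dt ν v, ?_⟩
      have h1 := hbf y v
      rw [← hy, bd_G h] at h1
      have h2 : bf G y v = dt (ν + ν) v := by exact_mod_cast h1
      rw [h2]
      simp only [dt, Pi.add_apply, Finset.mul_sum]
      refine Finset.sum_congr rfl fun i _ => ?_
      simp only [Int.cast_id]
      ring

end Pool.Agent.U398.RL
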