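import Pool.Agent.U398.RL.Fin0
import Pool.Agent.U398.RL.GenA
import Pool.Agent.U398.RL.EED
import Pool.Agent.U388.RL.GenusTwo
import Pool.Agent.U388.RL.GenusOddReal
import Pool.Agent.U261.RL.Theta1
import Pool.Agent.U578.RL.VV
import Pool.Agent.U578.RL.ODE2
import Pool.Agent.U578.RL.FinFour

set_option autoImplicit false

/-!
# Project RL (MP_f1d0b6_nt): everything but the inversion formula of the theta decomposition
-/

namespace Pool.Agent.U398.RL

open Pool.Agent.Y813.RL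

open Pool.Agent.Y813.Refl (quadric IsReflectiveLattice gramM) in
theorem main2 (hT2 : JobTheta2)
    {G : Matrix (Fin 20) (Fin 20) ℤ} (h : PosSymm G) (he : ∀ i, Even (G i i))
    {Z₀ : Fin 4 ⊕ Fin 20 → ℂ} (hZ₀ : Z₀ ∈ quadric (gramM G))
    (hR : IsReflectiveLattice (gramM G) (connectedComponentIn (quadric (gramM G)) Z₀)) :
    Pool.Agent.Y813.Refl.SameGenus G Pool.Agent.Y813.Refl.gramEED :=
  main Pool.Agent.U261.RL.jobTheta1 hT2 Pool.Agent.U578.RL.jobFinFour Pool.Agent.U578.RL.jobVV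
    Pool.Agent.U578.RL.jobODE
    (genus (jobGenusA Pool.Agent.U578.RL.jobFinFour) jobEED Pool.Agent.U388.RL.jobGenusTwo
      Pool.Agent.U388.RL.Gen.jobGenusOdd Pool.Agent.U388.RL.Gen.jobGenusReal) h he hZ₀ hR

end Pool.Agent.U398.RL
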