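import Pool.Agent.Y813.RL.Per

set_option autoImplicit false

/-!
# Growth of the Jacobi form on rational slices
-/

namespace Pool.Agent.U398.RL

open Complex Set Finset Topology Pool.Agent.Y813.RL
open Pool.Agent.Y683.RL (HP fco)

noncomputable section

variable {G : Matrix (Fin 20) (Fin 20) ℤ} {k : ℤ} {F : TP → ℂ}
  {φ : ℕ → ℂ × (Fin 20 → ℂ) → ℂ} {C m : ℕ}

/-- the slice over the direction `x` -/
def sl (x y : Fin 20 → ℝ) (τ : ℂ) : ℂ × (Fin 20 → ℂ) := (τ, fun i => τ * (x i : ℂ) + (y i : ℂ))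

theorem sl_mem (x y : Fin 20 → ℝ) {τ : ℂ} (hτ : 0 < τ.im) : sl x y τ ∈ UP := hτ

theorem imv_sl (x y : Fin 20 → ℝ) (τ : ℂ) : imv (sl x y τ).2 = τ.im • x := by
  funext i
  simp [imv, sl]

theorem xp_sl (x y : Fin 20 → ℝ) {τ : ℂ} (hτ : 0 < τ.im) : xp (sl x y τ) = x := by
  unfold xp
  rw [imv_sl]
  show (τ.im)⁻¹ • τ.im • x = x
  rw [smul_smul, inv_mul_cancel₀ hτ.ne', one_smul]

theorem bh_sl (x y : Fin 20 → ℝ) {τ : ℂ} (hτ : 0 < τ.im) :
    bh G (sl x y τ) = τ.im * (bf G x x / 2) := by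
  rw [bh_eq (sl_mem x y hτ), xp_sl x y hτ]
  rfl

theorem sl_diff (x y : Fin 20 → ℝ) : Differentiable ℂ (sl x y) := by
  unfold sl
  fun_prop

/-- a variant of `fco_zero` -/
theorem fco_zero' {f : ℂ → ℂ} (hf : HP 0 f) {M a T₁ : ℝ}
    (hM : ∀ t : ℂ, T₁ ≤ t.im → ‖f t‖ ≤ M * Real.exp (a * t.im)) {n : ℤ}
    (hn : 2 * Real.pi * n + a < 0) : fco 0 f n = 0 := by
  rw [hf.fco_eq n (w := Complex.I) (by simp)]
  refine HP_line_zero (f := fun t => f t * ee (-(n * t))) (hf.mul_ee n) ?_ (by simp)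
  intro ε hε
  have ht : Filter.Tendsto (fun T : ℝ => |M| * Real.exp ((2 * Real.pi * n + a) * T)) Filter.atTop
      (𝓝 (|M| * 0)) := by
    refine Filter.Tendsto.const_mul _ ?_
    refine Real.tendsto_exp_atBot.comp ?_
    exact Filter.Tendsto.const_mul_atTop_of_neg hn Filter.tendsto_id
  rw [mul_zero] at ht
  obtain ⟨T, hT⟩ := Filter.eventually_atTop.1 (ht.eventually (gt_mem_nhds hε))
  refine ⟨max T T₁, fun t htm => ?_⟩
  have h1 : T ≤ t.im := (le_max_left _ _).trans htm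
  have h2 : T₁ ≤ t.im := (le_max_right _ _).trans htm
  rw [norm_mul, norm_ee]
  have e1 : (-((n : ℂ) * t)).im = -(n * t.im) := by
    rw [Complex.neg_im, Complex.mul_im]; simp
  rw [e1]
  calc ‖f t‖ * Real.exp (-(2 * Real.pi * -(n * t.im))) ≤
      |M| * Real.exp (a * t.im) * Real.exp (-(2 * Real.pi * -(n * t.im))) := by
        gcongr
        refine (hM t h2).trans ?_
        gcongr
        exact le_abs_self _
    _ = |M| * Real.exp ((2 * Real.pi * n + a) * t.im) := by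
        rw [mul_assoc, ← Real.exp_add]
        congr 2
        ring
    _ ≤ ε := (hT _ h1).le

/-- iterated translation in `τ` -/
theorem law_Tn (hF : TubeForm G k F) (hφ : FJD G F φ) (j : ℕ) {τ : ℂ} (z : Fin 20 → ℂ)
    (hτ : 0 < τ.im) (n : ℕ) : φ j (τ + n, z) = φ j (τ, z) := by
  induction n with
  | zero => simp
  | succ n ih =>
    have h1 : 0 < (τ + (n : ℂ)).im := by simpa using hτ
    have := law_T hF hφ j z h1
    rw [← ih, ← this]
    congr 2
    push_cast
    ring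

theorem sl_add (X : Fin 20 → ℤ) {N : ℕ} (hN : 0 < N) (y : Fin 20 → ℝ) (τ : ℂ) :
    sl (xr X N) y (τ + N) = (τ + N, fun i => (sl (xr X N) y τ).2 i + (X i : ℂ)) := by
  unfold sl xr
  refine Prod.ext rfl ?_
  funext i
  have : (N : ℂ) ≠ 0 := by exact_mod_cast hN.ne'
  simp only
  push_cast
  field_simp
  ring

/-- Fourier-Jacobi coefficients on slices are periodic -/
theorem phi_HP (hF : TubeForm G k F) (hφ : FJD G F φ) (j : ℕ) (X : Fin 20 → ℤ) {N : ℕ}
    (hN : 0 < N) (y : Fin 20 → ℝ) : HP 0 (fun t => φ j (sl (xr X N) y (N * t))) where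
  holo := by
    refine (hφ.holo j).comp ((sl_diff _ _).comp (by fun_prop)).differentiableOn ?_
    intro t ht
    have ht' : (0 : ℝ) < t.im := ht
    have hN' : (0 : ℝ) < N := by exact_mod_cast hN
    show 0 < ((N : ℂ) * t).im
    have : ((N : ℂ) * t).im = N * t.im := by simp [Complex.mul_im]
    rw [this]
    positivity
  per := by
    intro t ht
    have hN' : (0 : ℝ) < N := by exact_mod_cast hN
    have hτ : 0 < ((N : ℂ) * t).im := by
      have : ((N : ℂ) * t).im = N * t.im := by simp [Complex.mul_im]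
      rw [this]
      positivity
    have e : (N : ℂ) * (t + 1) = N * t + N := by ring
    rw [e, sl_add X hN, law_Tn hF hφ j _ hτ, law_z hF hφ j _ X hτ]
    rfl

variable {c : ℂ → (Fin 20 → ℂ) → ℂ}

/-- bound for the coefficients on slices -/
theorem phi_bound (hKD : JobKD) (h : PosSymm G) (hF : TubeForm G k F) (hφ : FJD G F φ) (j : ℕ)
    (X : Fin 20 → ℤ) {N : ℕ} (hN : 0 < N) {η : ℝ} (hη : 0 < η) : ∃ M₀ : ℝ, 0 < M₀ ∧
      (∀ (y : Fin 20 → ℝ) (τ ω : ℂ), 1 ≤ τ.im →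
        (η + bf G (xr X N) (xr X N) / 2) * τ.im ≤ ω.im → ‖F (ω, sl (xr X N) y τ)‖ ≤ M₀) ∧
      ∀ (y : Fin 20 → ℝ) (τ : ℂ), 1 ≤ τ.im → ‖φ j (sl (xr X N) y τ)‖ ≤
        M₀ * Real.exp (2 * Real.pi * j * (η + bf G (xr X N) (xr X N) / 2) * τ.im) := by
  obtain ⟨M, hM⟩ := bound_slice hKD h hF X hN hη
  have hb : ∀ (y : Fin 20 → ℝ) (τ ω : ℂ), 1 ≤ τ.im →
      (η + bf G (xr X N) (xr X N) / 2) * τ.im ≤ ω.im → ‖F (ω, sl (xr X N) y τ)‖ ≤ |M| + 1 := by
    intro y τ ω hτ hω
    have := hM (ω, sl (xr X N) y τ) hτ (imv_sl _ _ _) hω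
    exact this.trans ((le_abs_self _).trans (by linarith))
  refine ⟨|M| + 1, by positivity, hb, fun y τ hτ => ?_⟩
  have hτ0 : 0 < τ.im := by linarith
  set v := (η + bf G (xr X N) (xr X N) / 2) * τ.im with hv
  rw [hφ.coeff j (sl (xr X N) y τ) v (sl_mem _ _ hτ0) (by
    rw [bh_sl _ _ hτ0, hv]
    nlinarith)]
  have hbd : ∀ u ∈ Set.uIoc (0 : ℝ) 1, ‖F ((u : ℂ) + (v : ℂ) * Complex.I, sl (xr X N) y τ) *
      ee (-(j * ((u : ℂ) + (v : ℂ) * Complex.I)))‖ ≤
      (|M| + 1) * Real.exp (2 * Real.pi * j * (η + bf G (xr X N) (xr X N) / 2) * τ.im) := by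
    intro u _
    rw [norm_mul, norm_ee]
    have him : ((u : ℂ) + (v : ℂ) * Complex.I).im = v := by simp
    have e1 : (-((j : ℂ) * ((u : ℂ) + (v : ℂ) * Complex.I))).im = -(j * v) := by
      rw [Complex.neg_im, Complex.mul_im, him]; simp
    rw [e1]
    have e2 : -(2 * Real.pi * -(j * v)) =
        2 * Real.pi * j * (η + bf G (xr X N) (xr X N) / 2) * τ.im := by
      rw [hv]; ring
    rw [e2]
    gcongr
    exact hb y τ _ hτ (by rw [him])
  have := intervalIntegral.norm_integral_le_of_norm_le_const hbd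
  simpa using this

/-- **growth of the Jacobi form on a slice** -/
theorem c_growth (hBC : JobBC) (hKD : JobKD) (h : PosSymm G) (H : CM G k F φ C m)
    (hcq : ∀ τ z, 0 < τ.im → φ (C + m) (τ, z) = φ C (τ, z) * c τ z)
    (X : Fin 20 → ℤ) {N : ℕ} (hN : 0 < N) {η : ℝ} (hη : 0 < η) (y : Fin 20 → ℝ)
    (hm : ∀ τ : ℂ, 0 < τ.im → sl (xr X N) y τ ∉ Mir G)
    (hz : ∃ T₀ : ℝ, ∀ τ ω : ℂ, T₀ ≤ τ.im →
      (η + bf G (xr X N) (xr X N) / 2) * τ.im < ω.im → F (ω, sl (xr X N) y τ) ≠ 0) :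
    ∃ A T₁ : ℝ, 1 ≤ T₁ ∧ 0 ≤ A ∧ ∀ τ : ℂ, T₁ ≤ τ.im →
      ‖c τ (sl (xr X N) y τ).2‖ ≤
        A * τ.im * Real.exp (2 * Real.pi * m * (η + bf G (xr X N) (xr X N) / 2) * τ.im) := by
  have hpi := Real.pi_pos
  obtain ⟨T₀, hT₀⟩ := hz
  obtain ⟨M₀, hM₀, hb1, hb2⟩ := phi_bound hKD h H.tf H.fd C X hN hη
  have hN' : (0 : ℝ) < N := by exact_mod_cast hN
  have hN1 : (1 : ℝ) ≤ N := by exact_mod_cast hN
  have hbx : 0 ≤ bf G (xr X N) (xr X N) := h.nonneg _
  set E := η + bf G (xr X N) (xr X N) / 2 with hE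
  have hE0 : 0 < E := by positivity
  have him : ∀ t : ℂ, ((N : ℂ) * t).im = N * t.im := by intro t; simp [Complex.mul_im]
  have hf := phi_HP H.tf H.fd C X hN y
  have hne : ∀ τ : ℂ, 0 < τ.im → φ C (sl (xr X N) y τ) ≠ 0 := fun τ hτ =>
    leading_ne_zero h H.tf H.fd H.hC H.hne (sl_mem _ _ hτ) (hm τ hτ)
  obtain ⟨c', a', T₁, hc', hl⟩ := per_lower hf
    ⟨Complex.I, by simp, hne _ (by rw [him]; simpa using hN)⟩
    (M := M₀) (a := 2 * Real.pi * C * E * N) (by
      intro t ht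
      have := hb2 y (N * t) (by rw [him]; nlinarith)
      rw [him] at this
      refine this.trans_eq ?_
      congr 2
      ring)
  set A' := |Real.log (M₀ / c')| + |2 * Real.pi * C * E + a' / N| + 1 with hA'
  have hA'0 : 0 < A' := by positivity
  refine ⟨2 * A' * 2 ^ m, max 1 (max T₀ (N * T₁)), le_max_left _ _, by positivity, fun τ hτ => ?_⟩
  have hτ1 : 1 ≤ τ.im := (le_max_left _ _).trans hτ
  have hτ2 : T₀ ≤ τ.im := ((le_max_left _ _).trans (le_max_right _ _)).trans hτ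
  have hτ3 : N * T₁ ≤ τ.im := ((le_max_right _ _).trans (le_max_right _ _)).trans hτ
  have hτ0 : 0 < τ.im := by linarith
  set p := sl (xr X N) y τ with hp
  have hpU : p ∈ UP := sl_mem _ _ hτ0
  have h0 : φ C p ≠ 0 := hne τ hτ0
  have hφ0 : 0 < ‖φ C p‖ := norm_pos_iff.2 h0
  have hlow : c' * Real.exp (-(a' / N * τ.im)) ≤ ‖φ C p‖ := by
    have hNc : (N : ℂ) ≠ 0 := by exact_mod_cast hN.ne'
    have := hl (τ / N) (by
      rw [Complex.div_natCast_im, le_div_iff₀ hN']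
      linarith)
    rw [Complex.div_natCast_im] at this
    have e : (N : ℂ) * (τ / N) = τ := by field_simp
    simp only [e] at this
    refine le_trans (le_of_eq ?_) this
    congr 2
    ring
  set v := E * τ.im with hv
  have hbv : bh G p < v := by
    rw [hp, bh_sl _ _ hτ0, hv, hE]
    nlinarith
  set R := Real.exp (-(2 * Real.pi * v)) with hR
  have hR0 : 0 < R := Real.exp_pos _
  have hRR : R < Real.exp (-(2 * Real.pi * bh G p)) := by
    rw [hR, Real.exp_lt_exp]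
    nlinarith
  have hFb : ∀ ω : ℂ, ω.im = v → ‖F (ω, p)‖ ≤ M₀ := fun ω hω =>
    hb1 y τ ω hτ1 (by rw [hω])
  have hbound : ∀ s ∈ Metric.ball (0 : ℂ) R, ‖gp φ C m p s‖ ≤ Real.exp (A' * τ.im) := by
    intro s hs
    rw [Metric.mem_ball, dist_zero_right] at hs
    refine (H.gp_bound hpU h0 hbv hFb hs.le).trans ?_
    rw [div_le_iff₀ hφ0]
    have h1 : M₀ = Real.exp (Real.log (M₀ / c')) * c' := by
      rw [Real.exp_log (by positivity)]
      field_simp
    calc M₀ * Real.exp (2 * Real.pi * v * C) =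
        Real.exp (Real.log (M₀ / c')) * c' * Real.exp (2 * Real.pi * v * C) := by rw [← h1]
      _ = Real.exp (Real.log (M₀ / c') + 2 * Real.pi * v * C + a' / N * τ.im) *
          (c' * Real.exp (-(a' / N * τ.im))) := by
          rw [Real.exp_add, Real.exp_add, Real.exp_neg]
          field_simp
      _ ≤ Real.exp (A' * τ.im) * ‖φ C p‖ := by
          refine mul_le_mul (Real.exp_le_exp.2 ?_) hlow (by positivity) (by positivity)
          rw [hA', hv]
          have h2 : Real.log (M₀ / c') ≤ |Real.log (M₀ / c')| * τ.im := by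
            nlinarith [le_abs_self (Real.log (M₀ / c')), abs_nonneg (Real.log (M₀ / c'))]
          have h3 : (2 * Real.pi * C * E + a' / N) * τ.im ≤
              |2 * Real.pi * C * E + a' / N| * τ.im := by
            gcongr
            exact le_abs_self _
          nlinarith
  have hgne : ∀ s ∈ Metric.ball (0 : ℂ) R, gp φ C m p s ≠ 0 := by
    intro s hs
    rw [Metric.mem_ball, dist_zero_right] at hs
    by_cases hs0 : s = 0
    · rw [hs0]
      simp [gp, H.hm.ne']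
    · obtain ⟨ω, hω, him⟩ := exists_ee hs0
      have hvω : v < ω.im := by
        rw [him, lt_div_iff₀ (by positivity)]
        have := Real.log_lt_log (norm_pos_iff.2 hs0) hs
        rw [hR, Real.log_exp] at this
        linarith
      rw [← hω, H.gp_eq hpU h0 (hbv.trans hvω)]
      exact div_ne_zero (mul_ne_zero (hT₀ τ ω hτ2 hvω) (ee_ne_zero _)) h0
  have hHd := H.Hs_diff hpU
  have hcont : ContinuousAt (fun s => Hs φ C m p s / φ C p) 0 := by
    have : DifferentiableAt ℂ (Hs φ C m p) 0 :=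
      hHd.differentiableAt (Metric.isOpen_ball.mem_nhds (Metric.mem_ball_self (Real.exp_pos _)))
    exact (this.div_const _).continuousAt
  have key := hBC m R (A' * τ.im) (gp φ C m p) (fun s => Hs φ C m p s / φ C p) H.hm hR0
    (by positivity)
    ((H.gp_diff hpU).mono (Metric.ball_subset_ball hRR.le)) hcont (fun s _ => rfl) hgne hbound
  have hceq : Hs φ C m p 0 / φ C p = c τ p.2 := by
    rw [Hs_zero, div_eq_iff h0]
    have := hcq τ p.2 hτ0
    rw [mul_comm]
    exact this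
  simp only [hceq] at key
  refine key.trans (le_of_eq ?_)
  have e3 : (2 / R) ^ m = 2 ^ m * Real.exp (2 * Real.pi * m * E * τ.im) := by
    rw [div_pow, hR, ← Real.exp_nat_mul, div_eq_mul_inv, ← Real.exp_neg]
    congr 2
    rw [hv]
    ring
  rw [e3]
  ring

end

end Pool.Agent.U398.RL
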