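import Pool.Agent.U398.RL.Grow1

set_option autoImplicit false

/-!
# Vanishing of Fourier coefficients from growth on rational slices
-/

namespace Pool.Agent.U398.RL

open Complex Set Finset Topology MeasureTheory Pool.Agent.Y813.RL
open Pool.Agent.Y683.RL (HP fco)

noncomputable section

variable {A : Matrix (Fin 20) (Fin 20) ℤ} {c : ℂ → (Fin 20 → ℂ) → ℂ}

theorem c_Tn (hc : JacobiZero A c) {τ : ℂ} (z : Fin 20 → ℂ) (hτ : 0 < τ.im) (n : ℕ) :
    c (τ + n) z = c τ z := by
  induction n with
  | zero => simp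
  | succ n ih =>
    have h1 : 0 < (τ + (n : ℂ)).im := by simpa using hτ
    have := hc.perτ (τ + n) z h1
    rw [← ih, ← this]
    congr 1
    push_cast
    ring

theorem im_natMul (N : ℕ) (t : ℂ) : ((N : ℂ) * t).im = N * t.im := by simp [Complex.mul_im]

theorem c_slice_HP (hc : JacobiZero A c) (X : Fin 20 → ℤ) {N : ℕ} (hN : 0 < N)
    (y : Fin 20 → ℝ) : HP 0 (fun t => c (N * t) (sl (xr X N) y (N * t)).2) where
  holo := by
    have hN' : (0 : ℝ) < N := by exact_mod_cast hN
    have h1 : DifferentiableOn ℂ (fun t : ℂ => (((N : ℂ) * t, (sl (xr X N) y (N * t)).2) :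
        ℂ × (Fin 20 → ℂ))) {t | 0 < t.im} := by
      have := (sl_diff (xr X N) y).comp (by fun_prop : Differentiable ℂ fun t : ℂ => (N : ℂ) * t)
      exact this.differentiableOn
    exact hc.holo.comp h1 (fun t ht => by
      show 0 < ((N : ℂ) * t).im
      rw [im_natMul]
      have : (0 : ℝ) < t.im := ht
      positivity)
  per := by
    intro t ht
    have hN' : (0 : ℝ) < N := by exact_mod_cast hN
    have hτ : 0 < ((N : ℂ) * t).im := by
      rw [im_natMul]
      positivity
    have e : (N : ℂ) * (t + 1) = N * t + N := by ring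
    rw [e, sl_add X hN, c_Tn hc _ hτ]
    exact hc.perz _ _ X hτ

/-- **vanishing of Fourier coefficients** -/
theorem fc_zero (hT1 : JobTheta1) (hA : PosSymm A) (hc : JacobiZero A c) (X : Fin 20 → ℤ) {N : ℕ}
    (hN : 0 < N) {E : ℝ}
    (hgr : ∀ y : Fin 20 → ℝ, ∃ B T₁ : ℝ, 0 ≤ B ∧ ∀ τ : ℂ, T₁ ≤ τ.im →
      ‖c τ (sl (xr X N) y τ).2‖ ≤ B * τ.im * Real.exp (2 * Real.pi * E * τ.im))
    {μ : Fin 20 → ℤ} {n : ℤ} (hn : (n : ℝ) + E + dt μ (xr X N) < 0) :
    fco 0 (fc c μ) n = 0 := by
  obtain ⟨t1, t2, t3, -, -⟩ := hT1 A c hA hc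
  have hpi := Real.pi_pos
  have hN' : (0 : ℝ) < N := by exact_mod_cast hN
  have hNc : (N : ℂ) ≠ 0 := by exact_mod_cast hN.ne'
  set x := xr X N with hx
  set j : ℤ := n * N + dt μ X with hj
  have hjr : (j : ℝ) = N * ((n : ℝ) + dt μ x) := by
    rw [hj, hx]
    unfold dt xr
    push_cast
    rw [mul_add, Finset.mul_sum]
    congr 1
    · ring
    · refine Finset.sum_congr rfl fun i _ => ?_
      field_simp
  have hjneg : (j : ℝ) + N * E < 0 := by
    rw [hjr]
    have : (N : ℝ) * ((n : ℝ) + E + dt μ x) < 0 := mul_neg_of_pos_of_neg hN' hn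
    linarith
  -- the coefficients of the slices vanish
  have hfy : ∀ y : Fin 20 → ℝ, fco 0 (fun t => c (N * t) (sl x y (N * t)).2) j = 0 := by
    intro y
    obtain ⟨B, T₁, hB, hb⟩ := hgr y
    set ε := -((j : ℝ) + N * E) with hε
    have hε0 : 0 < ε := by rw [hε]; linarith
    refine fco_zero' (c_slice_HP hc X hN y) (M := B * N / ε) (a := 2 * Real.pi * E * N + ε)
      (T₁ := max 0 (T₁ / N)) ?_ ?_
    · intro t ht
      have ht0 : 0 ≤ t.im := (le_max_left _ _).trans ht
      have ht1 : T₁ ≤ N * t.im := by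
        have := (le_max_right _ _).trans ht
        rw [div_le_iff₀ hN'] at this
        linarith
      have h1 := hb (N * t) (by rw [im_natMul]; exact ht1)
      rw [im_natMul] at h1
      refine h1.trans ?_
      have h2 : t.im ≤ Real.exp (ε * t.im) / ε := by
        rw [le_div_iff₀ hε0]
        have := Real.add_one_le_exp (ε * t.im)
        linarith
      calc B * (N * t.im) * Real.exp (2 * Real.pi * E * (N * t.im)) ≤
          B * (N * (Real.exp (ε * t.im) / ε)) * Real.exp (2 * Real.pi * E * (N * t.im)) := by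
            gcongr
        _ = B * N / ε * (Real.exp (2 * Real.pi * E * N * t.im) * Real.exp (ε * t.im)) := by
            rw [show 2 * Real.pi * E * (N * t.im) = 2 * Real.pi * E * N * t.im by ring]
            field_simp
        _ = _ := by
            rw [← Real.exp_add]
            congr 2
            ring
    · have h3 : (6 : ℝ) ≤ 2 * Real.pi := by linarith [Real.pi_gt_three]
      nlinarith
  -- the integral representation
  have hfc : HP 0 (fc c μ) := ⟨t1 μ, fun t ht => t2 μ t ht⟩
  have hrep : ∀ t : ℂ, 0 < t.im → fc c μ (N * t) * ee (((dt μ X : ℤ) : ℂ) * t) =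
      ∫ y in Set.Icc (0 : Fin 20 → ℝ) 1, c (N * t) (sl x y (N * t)).2 *
        ee (-(dt μ (fun i => (y i : ℂ)))) := by
    intro t ht
    have hτ : 0 < ((N : ℂ) * t).im := by rw [im_natMul]; positivity
    rw [t3 μ (N * t) (fun i => (N * t) * (x i : ℂ)) hτ, ← integral_mul_const]
    refine integral_congr_ae (Filter.Eventually.of_forall fun y => ?_)
    simp only [sl]
    have e1 : dt μ (fun i => (N : ℂ) * t * (x i : ℂ) + (y i : ℂ)) =
        ((dt μ X : ℤ) : ℂ) * t + dt μ (fun i => (y i : ℂ)) := by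
      rw [hx]
      unfold dt xr
      push_cast
      rw [Finset.sum_mul, ← Finset.sum_add_distrib]
      refine Finset.sum_congr rfl fun i _ => ?_
      push_cast
      field_simp
    rw [e1, mul_assoc, ← Y813.RL.ee_add]
    congr 2
    ring
  have hper : Function.Periodic (fun u : ℝ => fc c μ ((u : ℂ) + N * Complex.I) *
      ee (-(n * ((u : ℂ) + N * Complex.I)))) 1 := by
    intro u
    have := (hfc.mul_ee n).per ((u : ℂ) + N * Complex.I) (by
      rw [Complex.add_im, im_natMul]; simpa using hN)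
    simp only at this ⊢
    rw [← this]
    congr 2
    · push_cast; ring
    · push_cast; ring
  have h0 : fco 0 (fc c μ) n = ∫ v in (0 : ℝ)..1, fc c μ (N * ((v : ℂ) + Complex.I)) *
      ee (-(n * (N * ((v : ℂ) + Complex.I)))) := by
    rw [hfc.fco_eq n (w := N * Complex.I) (by rw [im_natMul]; simpa using hN)]
    have h1 := intervalIntegral.integral_comp_mul_left (a := 0) (b := 1)
      (fun u : ℝ => fc c μ ((u : ℂ) + N * Complex.I) *
      ee (-(n * ((u : ℂ) + N * Complex.I)))) hN'.ne'
    have h2 : ∫ v in (0 : ℝ)..1, fc c μ (N * ((v : ℂ) + Complex.I)) *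
        ee (-(n * (N * ((v : ℂ) + Complex.I)))) =
        ∫ v in (0 : ℝ)..1, (fun u : ℝ => fc c μ ((u : ℂ) + N * Complex.I) *
          ee (-(n * ((u : ℂ) + N * Complex.I)))) (N * v) := by
      refine intervalIntegral.integral_congr fun v _ => ?_
      simp only
      push_cast
      congr 2
      · ring
      · ring_nf
    rw [h2, h1]
    have h3 := hper.intervalIntegral_add_zsmul_eq N 0 (by
      intro t₁ t₂
      refine Continuous.intervalIntegrable ?_ _ _
      exact (hfc.mul_ee n).cont_line (w := N * Complex.I) (by rw [im_natMul]; simpa using hN))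
    simp only [zero_add, mul_one, zsmul_eq_mul, Int.cast_natCast, mul_zero] at h3 ⊢
    rw [h3, Complex.real_smul, Complex.ofReal_inv, Complex.ofReal_natCast, ← mul_assoc,
      inv_mul_cancel₀ hNc, one_mul]
  rw [h0]
  have h4 : ∫ v in (0 : ℝ)..1, fc c μ (N * ((v : ℂ) + Complex.I)) *
      ee (-(n * (N * ((v : ℂ) + Complex.I)))) =
      ∫ v in (0 : ℝ)..1, ∫ y in Set.Icc (0 : Fin 20 → ℝ) 1,
        c (N * ((v : ℂ) + Complex.I)) (sl x y (N * ((v : ℂ) + Complex.I))).2 *
        ee (-(dt μ (fun i => (y i : ℂ)))) * ee (-(j * ((v : ℂ) + Complex.I))) := by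
    refine intervalIntegral.integral_congr fun v _ => ?_
    rw [integral_mul_const, ← hrep ((v : ℂ) + Complex.I) (by simp), mul_assoc,
      ← Y813.RL.ee_add]
    congr 2
    rw [hj]
    push_cast
    ring
  rw [h4, intervalIntegral.integral_of_le zero_le_one]
  have hcont : ContinuousOn (fun q : ℝ × (Fin 20 → ℝ) =>
      c (N * ((q.1 : ℂ) + Complex.I)) (sl x q.2 (N * ((q.1 : ℂ) + Complex.I))).2 *
        ee (-(dt μ (fun i => (q.2 i : ℂ)))) * ee (-(j * ((q.1 : ℂ) + Complex.I)))) Set.univ := by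
    have hA1 : ContinuousOn (fun q : ℝ × (Fin 20 → ℝ) =>
        c (N * ((q.1 : ℂ) + Complex.I)) (sl x q.2 (N * ((q.1 : ℂ) + Complex.I))).2) Set.univ := by
      refine hc.holo.continuousOn.comp (g := fun p : ℂ × (Fin 20 → ℂ) => c p.1 p.2)
        (f := fun q : ℝ × (Fin 20 → ℝ) => (((N : ℂ) * ((q.1 : ℂ) + Complex.I),
          (sl x q.2 (N * ((q.1 : ℂ) + Complex.I))).2) : ℂ × (Fin 20 → ℂ))) ?_ ?_
      · unfold sl
        fun_prop
      · intro q _
        show 0 < ((N : ℂ) * ((q.1 : ℂ) + Complex.I)).im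
        rw [im_natMul]
        simpa using hN
    refine (hA1.mul ?_).mul ?_
    · have : Continuous fun q : ℝ × (Fin 20 → ℝ) => ee (-(dt μ (fun i => (q.2 i : ℂ)))) := by
        unfold dt
        refine Y683.RL.ee_cont.comp ?_
        fun_prop
      exact this.continuousOn
    · have : Continuous fun q : ℝ × (Fin 20 → ℝ) => ee (-(j * ((q.1 : ℂ) + Complex.I))) := by
        refine Y683.RL.ee_cont.comp ?_
        fun_prop
      exact this.continuousOn
  rw [integral_integral_swap]
  · have h5 : ∀ y : Fin 20 → ℝ, ∫ v in Set.Ioc (0 : ℝ) 1,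
        c (N * ((v : ℂ) + Complex.I)) (sl x y (N * ((v : ℂ) + Complex.I))).2 *
        ee (-(dt μ (fun i => (y i : ℂ)))) * ee (-(j * ((v : ℂ) + Complex.I))) = 0 := by
      intro y
      have h6 := hfy y
      rw [(c_slice_HP hc X hN y).fco_eq j (w := Complex.I) (by simp),
        intervalIntegral.integral_of_le zero_le_one] at h6
      calc _ = ∫ v in Set.Ioc (0 : ℝ) 1, ee (-(dt μ (fun i => (y i : ℂ)))) *
          (c (N * ((v : ℂ) + Complex.I)) (sl x y (N * ((v : ℂ) + Complex.I))).2 *
          ee (-(j * ((v : ℂ) + Complex.I)))) := by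
            refine integral_congr_ae (Filter.Eventually.of_forall fun v => ?_)
            simp only
            ring
        _ = 0 := by rw [integral_const_mul, h6, mul_zero]
    simp only [h5, integral_zero]
  · have hK : IsCompact (Set.Icc (0 : ℝ) 1 ×ˢ Set.Icc (0 : Fin 20 → ℝ) 1) :=
      isCompact_Icc.prod isCompact_Icc
    have h7 := (hcont.mono (Set.subset_univ (Set.Icc (0 : ℝ) 1 ×ˢ Set.Icc (0 : Fin 20 → ℝ)
      1))).integrableOn_compact hK (μ := (volume : Measure ℝ).prod (volume : Measure (Fin 20 → ℝ)))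
    have h8 := h7.mono_set (Set.prod_mono_left Set.Ioc_subset_Icc_self :
      Set.Ioc (0 : ℝ) 1 ×ˢ Set.Icc (0 : Fin 20 → ℝ) 1 ⊆ _)
    rw [IntegrableOn, ← Measure.prod_restrict] at h8
    exact h8

end

end Pool.Agent.U398.RL
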