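import Pool.Agent.U398.RL.Grow1

set_option autoImplicit false

/-!
# Zeros over generic rational directions
-/

namespace Pool.Agent.U398.RL

open Complex Set Finset Topology Pool.Agent.Y813.RL
open Pool.Agent.Y683.RL (HP fco)

noncomputable section

variable {G : Matrix (Fin 20) (Fin 20) ℤ} {k : ℤ} {F : TP → ℂ}
  {φ : ℕ → ℂ × (Fin 20 → ℂ) → ℂ} {C m : ℕ}

/-- generic directions -/
structure GX (G : Matrix (Fin 20) (Fin 20) ℤ) (J : ℕ) (x : Fin 20 → ℝ) : Prop where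
  mir : ∀ μ : Fin 20 → ℤ, μ ≠ 0 → bd G μ μ ≤ 2 → ∀ k : ℤ, dt μ x ≠ k
  ind : ∀ (μ₁ μ₂ : Fin 20 → ℤ) (m₁ m₂ : ℤ), 0 < m₁ → m₁ ≤ J → 0 < m₂ → m₂ ≤ J →
    bf G (lam G μ₁ + (m₁ : ℝ) • x) (lam G μ₁ + (m₁ : ℝ) • x) ≤ 2 →
    bf G (lam G μ₂ + (m₂ : ℝ) • x) (lam G μ₂ + (m₂ : ℝ) • x) ≤ 2 →
    ∀ k : ℤ, dt (m₂ • μ₁ - m₁ • μ₂) x = k → m₂ • μ₁ - m₁ • μ₂ = 0

theorem bf_le_two (h : PosSymm G) (a b : Fin 20 → ℝ) :
    bf G a a ≤ 2 * bf G (a + b) (a + b) + 2 * bf G b b := by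
  have h1 := h.nonneg (a + b + b)
  have h2 : bf G (a + b + b) (a + b + b) =
      2 * bf G (a + b) (a + b) + 2 * bf G b b - bf G a a := by
    simp only [bf_add_left, bf_add_right, bf_comm h.symm b a]
    ring
  linarith

/-- **generic rational directions exist in every open set** -/
theorem exists_GX (h : PosSymm G) (J : ℕ) {O : Set (Fin 20 → ℝ)} (hO : IsOpen O)
    (hne : O.Nonempty) : ∃ (X : Fin 20 → ℤ) (N : ℕ), 0 < N ∧ xr X N ∈ O ∧ GX G J (xr X N) := by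
  obtain ⟨x₀, hx₀⟩ := hne
  set R := bf G x₀ x₀ + 1 with hR
  have hR0 : 0 < R := by have := h.nonneg x₀; linarith
  obtain ⟨Q₀, hQ₀⟩ := short_bound h (4 + 2 * (J : ℝ) ^ 2 * R)
  have hO' : IsOpen (O ∩ {x | bf G x x < R}) :=
    hO.inter (isOpen_lt (bf_contR G continuous_id continuous_id) continuous_const)
  obtain ⟨X, N, hN, ⟨hX, hXR⟩, hgen⟩ := gen (2 * J * Q₀ + Q₀) hO' ⟨x₀, hx₀, by
    show bf G x₀ x₀ < R
    rw [hR]; linarith⟩
  have hXR' : bf G (xr X N) (xr X N) < R := hXR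
  refine ⟨X, N, hN, hX, ?_, ?_⟩
  · intro μ hμ hb k
    refine hgen μ hμ (fun i => ?_) k
    have h1 := hQ₀ μ (hb.trans (by nlinarith [mul_nonneg (sq_nonneg (J : ℝ)) hR0.le])) i
    have h2 : (0 : ℤ) ≤ 2 * J * Q₀ := by positivity
    push_cast
    linarith
  · intro μ₁ μ₂ m₁ m₂ h1 h1' h2 h2' hb1 hb2 k hk
    by_contra hne
    refine hgen _ hne (fun i => ?_) k hk
    have key : ∀ (μ : Fin 20 → ℤ) (m : ℤ), 0 < m → m ≤ J →
        bf G (lam G μ + (m : ℝ) • xr X N) (lam G μ + (m : ℝ) • xr X N) ≤ 2 →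
        ∀ i, |μ i| ≤ Q₀ := by
      intro μ m hm hm' hb
      refine hQ₀ μ ?_
      rw [← bf_lam_lam h]
      refine (bf_le_two h (lam G μ) ((m : ℝ) • xr X N)).trans ?_
      rw [bf_smul_left, bf_smul_right]
      have h3 : (m : ℝ) ^ 2 ≤ (J : ℝ) ^ 2 := by
        have h4 : (m : ℝ) ≤ J := by exact_mod_cast hm'
        have h5 : (0 : ℝ) < m := by exact_mod_cast hm
        nlinarith
      have h6 : (m : ℝ) ^ 2 * bf G (xr X N) (xr X N) ≤ (J : ℝ) ^ 2 * R :=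
        mul_le_mul h3 hXR'.le (h.nonneg _) (by positivity)
      nlinarith
    have e1 := key μ₁ m₁ h1 h1' hb1 i
    have e2 := key μ₂ m₂ h2 h2' hb2 i
    have e3 : (m₂ • μ₁ - m₁ • μ₂) i = m₂ * μ₁ i - m₁ * μ₂ i := by simp
    rw [e3]
    have e4 : |m₂ * μ₁ i| ≤ J * Q₀ := by
      rw [abs_mul, abs_of_pos h2]
      exact mul_le_mul h2' e1 (abs_nonneg _) (by positivity)
    have e5 : |m₁ * μ₂ i| ≤ J * Q₀ := by
      rw [abs_mul, abs_of_pos h1]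
      exact mul_le_mul h1' e2 (abs_nonneg _) (by positivity)
    have e6 := abs_sub (m₂ * μ₁ i) (m₁ * μ₂ i)
    push_cast
    have : (0 : ℤ) ≤ Q₀ := by positivity
    linarith

theorem GX.not_mir {J : ℕ} {x : Fin 20 → ℝ} (hx : GX G J x) (y : Fin 20 → ℝ) (τ : ℂ)
    (hτ : 0 < τ.im) : sl x y τ ∉ Mir G := by
  rw [Y813.RL.not_mir (sl_mem x y hτ)]
  intro μ h1 h2
  left
  rw [xp_sl x y hτ]
  refine hx.mir μ ?_ h2
  rintro rfl
  rw [bd_zero] at h1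
  exact lt_irrefl _ h1

theorem ht_sl (x y : Fin 20 → ℝ) {τ : ℂ} (hτ : 0 < τ.im) (ω : ℂ) :
    ht G (ω, sl x y τ) = ω.im / τ.im - bf G x x / 2 := by
  unfold ht
  simp only
  rw [xp_sl x y hτ]
  rfl

theorem sl_mem_Hd (x y : Fin 20 → ℝ) {τ ω : ℂ} (hτ : 0 < τ.im)
    (hω : bf G x x / 2 * τ.im < ω.im) : ((ω, sl x y τ) : TP) ∈ Hd G := by
  refine ⟨sl_mem x y hτ, ?_⟩
  rw [bh_sl x y hτ]
  linarith

/-- the wall of a zero -/
theorem zero_info {J : ℕ} {x : Fin 20 → ℝ} (h : PosSymm G) (hF : TubeForm G k F)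
    (hx : GX G J x) (y : Fin 20 → ℝ) {τ ω : ℂ} {η : ℝ} (hη : 0 < η) (hτ : 0 < τ.im)
    (hT : 1 < τ.im ^ 2 * η) (hω : (η + bf G x x / 2) * τ.im < ω.im)
    (h0 : F (ω, sl x y τ) = 0) : ∃ (b m n : ℤ) (μ : Fin 20 → ℤ), 0 < m ∧
      WallData G 0 b m n μ ∧ WEq G 0 b m n μ (ω, sl x y τ) ∧
      nu G 0 b m n μ = (m : ℝ) ^ 2 * (ω.im / τ.im - bf G x x / 2) +
        bf G (lam G μ + (m : ℝ) • x) (lam G μ + (m : ℝ) • x) / 2 := by
  have hb := h.nonneg x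
  have hht : η < ω.im / τ.im - bf G x x / 2 := by
    have : (η + bf G x x / 2) < ω.im / τ.im := by rwa [lt_div_iff₀ hτ]
    linarith
  have hW : ((ω, sl x y τ) : TP) ∈ Hd G := by
    refine sl_mem_Hd x y hτ ?_
    nlinarith
  obtain ⟨b, m, n, μ, hw, he⟩ := zero_wall h hF hW h0 (by
    rw [ht_sl x y hτ]
    show 1 < τ.im ^ 2 * _
    nlinarith [sq_nonneg τ.im])
  have hid : ∀ (b m n : ℤ) (μ : Fin 20 → ℤ), WEq G 0 b m n μ (ω, sl x y τ) →
      nu G 0 b m n μ = (m : ℝ) ^ 2 * (ω.im / τ.im - bf G x x / 2) +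
        bf G (lam G μ + (m : ℝ) • x) (lam G μ + (m : ℝ) • x) / 2 := by
    intro b m n μ he
    have := height_id h (W := (ω, sl x y τ)) hτ he
    rw [ht_sl x y hτ] at this
    simp only [xp_sl x y hτ] at this
    exact this
  rcases lt_trichotomy m 0 with hm | hm | hm
  · exact ⟨-b, -m, -n, -μ, by linarith, WallData_neg hw, WEq_neg he, hid _ _ _ _ (WEq_neg he)⟩
  · exfalso
    subst hm
    apply hx.not_mir y τ hτ
    have h4 := nu_le_one hw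
    unfold nu at h4
    refine ⟨b, n, μ, ?_, ?_, ?_⟩
    · have := h4.1
      push_cast at this
      linarith
    · have := h4.2
      push_cast at this
      linarith
    · unfold WEq at he
      push_cast at he
      linear_combination he
  · exact ⟨b, m, n, μ, hm, hw, he, hid _ _ _ _ he⟩

/-- **no zeros above the walls** -/
theorem zf_top {J : ℕ} {x : Fin 20 → ℝ} (h : PosSymm G) (hF : TubeForm G k F)
    (hx : GX G J x) {η : ℝ} (hη : 1 / 2 ≤ η)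
    (hd : ∀ v : Fin 20 → ℤ, 1 - bf G ((fun i => (v i : ℝ)) + x) ((fun i => (v i : ℝ)) + x) / 2 ≤ η)
    (y : Fin 20 → ℝ) : ∃ T₀ : ℝ, ∀ τ ω : ℂ, T₀ ≤ τ.im →
      (η + bf G x x / 2) * τ.im < ω.im → F (ω, sl x y τ) ≠ 0 := by
  refine ⟨2, fun τ ω hτ hω h0 => ?_⟩
  have hτ0 : 0 < τ.im := by linarith
  obtain ⟨b, m, n, μ, hm, hw, -, hid⟩ := zero_info h hF hx y (η := η) (by linarith) hτ0
    (by nlinarith) hω h0
  have hht : η < ω.im / τ.im - bf G x x / 2 := by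
    have : (η + bf G x x / 2) < ω.im / τ.im := by rwa [lt_div_iff₀ hτ0]
    linarith
  set t := ω.im / τ.im - bf G x x / 2 with ht
  have h5 := h.nonneg (lam G μ + (m : ℝ) • x)
  have hm1 : (1 : ℝ) ≤ m := by exact_mod_cast hm
  rcases hw with ⟨h1, v, hv⟩ | ⟨h1, h2⟩
  · have hnu : nu G 0 b m n μ = 1 := h1
    rw [hnu] at hid
    have hm2 : m = 1 := by
      by_contra hne
      have : (2 : ℤ) ≤ m := by omega
      have h6 : (2 : ℝ) ≤ m := by exact_mod_cast this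
      nlinarith
    subst hm2
    have hl : lam G μ = fun i => (v i : ℝ) := by rw [hv, lam_mulVec h]
    rw [hl] at hid
    have h7 := hd v
    simp only [Int.cast_one, one_smul, one_pow, one_mul] at hid
    linarith
  · have hnu : nu G 0 b m n μ ≤ 1 / 2 := h2
    have h6 : (1 : ℝ) ≤ (m : ℝ) ^ 2 := by nlinarith
    have h7 : t ≤ (m : ℝ) ^ 2 * t := by nlinarith
    linarith

end

end Pool.Agent.U398.RL
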