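import Pool.Agent.U398.RL.Grow3

set_option autoImplicit false

/-!
# The index of the Jacobi form is one: zeros of walls with few branches
-/

namespace Pool.Agent.U398.RL

open Complex Set Finset Topology Pool.Agent.Y813.RL
open Pool.Agent.Y683.RL (HP fco)

noncomputable section

variable {G : Matrix (Fin 20) (Fin 20) ℤ} {k : ℤ} {F : TP → ℂ}
  {φ : ℕ → ℂ × (Fin 20 → ℂ) → ℂ} {C m : ℕ}

/-- growth of the normalised function -/
theorem gp_growth (hKD : JobKD) (h : PosSymm G) (H : CM G k F φ C m)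
    (X : Fin 20 → ℤ) {N : ℕ} (hN : 0 < N) {η : ℝ} (hη : 0 < η) (y : Fin 20 → ℝ)
    (hm : ∀ τ : ℂ, 0 < τ.im → sl (xr X N) y τ ∉ Mir G) :
    ∃ A' T₁ : ℝ, 0 < A' ∧ 1 ≤ T₁ ∧ ∀ τ : ℂ, T₁ ≤ τ.im → φ C (sl (xr X N) y τ) ≠ 0 ∧
      ∀ s : ℂ, ‖s‖ ≤ Real.exp (-(2 * Real.pi * ((η + bf G (xr X N) (xr X N) / 2) * τ.im))) →
        ‖gp φ C m (sl (xr X N) y τ) s‖ ≤ Real.exp (A' * τ.im) := by
  have hpi := Real.pi_pos
  obtain ⟨M₀, hM₀, hb1, hb2⟩ := phi_bound hKD h H.tf H.fd C X hN hη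
  have hN' : (0 : ℝ) < N := by exact_mod_cast hN
  have hN1 : (1 : ℝ) ≤ N := by exact_mod_cast hN
  have hbx : 0 ≤ bf G (xr X N) (xr X N) := h.nonneg _
  set E := η + bf G (xr X N) (xr X N) / 2 with hE
  have hE0 : 0 < E := by positivity
  have him : ∀ t : ℂ, ((N : ℂ) * t).im = N * t.im := by intro t; simp [Complex.mul_im]
  have hf := phi_HP H.tf H.fd C X hN y
  have hne : ∀ τ : ℂ, 0 < τ.im → φ C (sl (xr X N) y τ) ≠ 0 := fun τ hτ =>
    leading_ne_zero h H.tf H.fd H.hC H.hne (sl_mem _ _ hτ) (hm τ hτ)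
  obtain ⟨c', a', T₁, hc', hl⟩ := per_lower hf
    ⟨Complex.I, by simp, hne _ (by rw [him]; simpa using hN)⟩
    (M := M₀) (a := 2 * Real.pi * C * E * N) (by
      intro t ht
      have := hb2 y (N * t) (by rw [him]; nlinarith)
      rw [him] at this
      refine this.trans_eq ?_
      congr 2
      ring)
  set A' := |Real.log (M₀ / c')| + |2 * Real.pi * C * E + a' / N| + 1 with hA'
  have hA'0 : 0 < A' := by positivity
  refine ⟨A', max 1 (N * T₁), hA'0, le_max_left _ _, fun τ hτ => ?_⟩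
  have hτ1 : 1 ≤ τ.im := (le_max_left _ _).trans hτ
  have hτ3 : N * T₁ ≤ τ.im := (le_max_right _ _).trans hτ
  have hτ0 : 0 < τ.im := by linarith
  set p := sl (xr X N) y τ with hp
  have hpU : p ∈ UP := sl_mem _ _ hτ0
  have h0 : φ C p ≠ 0 := hne τ hτ0
  refine ⟨h0, fun s hs => ?_⟩
  have hφ0 : 0 < ‖φ C p‖ := norm_pos_iff.2 h0
  have hlow : c' * Real.exp (-(a' / N * τ.im)) ≤ ‖φ C p‖ := by
    have hNc : (N : ℂ) ≠ 0 := by exact_mod_cast hN.ne'
    have := hl (τ / N) (by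
      rw [Complex.div_natCast_im, le_div_iff₀ hN']
      linarith)
    rw [Complex.div_natCast_im] at this
    have e : (N : ℂ) * (τ / N) = τ := by field_simp
    simp only [e] at this
    refine le_trans (le_of_eq ?_) this
    congr 2
    ring
  set v := E * τ.im with hv
  have hbv : bh G p < v := by
    rw [hp, bh_sl _ _ hτ0, hv, hE]
    nlinarith
  have hFb : ∀ ω : ℂ, ω.im = v → ‖F (ω, p)‖ ≤ M₀ := fun ω hω =>
    hb1 y τ ω hτ1 (by rw [hω])
  refine (H.gp_bound hpU h0 hbv hFb hs).trans ?_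
  rw [div_le_iff₀ hφ0]
  have h1 : M₀ = Real.exp (Real.log (M₀ / c')) * c' := by
    rw [Real.exp_log (by positivity)]
    field_simp
  calc M₀ * Real.exp (2 * Real.pi * v * C) =
      Real.exp (Real.log (M₀ / c')) * c' * Real.exp (2 * Real.pi * v * C) := by rw [← h1]
    _ = Real.exp (Real.log (M₀ / c') + 2 * Real.pi * v * C + a' / N * τ.im) *
        (c' * Real.exp (-(a' / N * τ.im))) := by
        rw [Real.exp_add, Real.exp_add, Real.exp_neg]
        field_simp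
    _ ≤ Real.exp (A' * τ.im) * ‖φ C p‖ := by
        refine mul_le_mul (Real.exp_le_exp.2 ?_) hlow (by positivity) (by positivity)
        rw [hA', hv]
        have h2 : Real.log (M₀ / c') ≤ |Real.log (M₀ / c')| * τ.im := by
          nlinarith [le_abs_self (Real.log (M₀ / c')), abs_nonneg (Real.log (M₀ / c'))]
        have h3 : (2 * Real.pi * C * E + a' / N) * τ.im ≤
            |2 * Real.pi * C * E + a' / N| * τ.im := by
          gcongr
          exact le_abs_self _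
        nlinarith

/-- the roots of unity of order at most `J` -/
def ES (J : ℕ) : Finset ℂ := by
  classical
  exact (Finset.range (J + 1)).biUnion fun j => (Finset.range j).image fun b : ℕ =>
    ee (-((b : ℂ) / (j : ℂ)))

theorem ES_card (J : ℕ) : 2 * (ES J).card ≤ J * (J + 1) := by
  classical
  unfold ES
  have h1 : ((Finset.range (J + 1)).biUnion fun j => (Finset.range j).image fun b : ℕ =>
      ee (-((b : ℂ) / (j : ℂ)))).card ≤ ∑ j ∈ Finset.range (J + 1), j := by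
    refine Finset.card_biUnion_le.trans (Finset.sum_le_sum fun j _ => ?_)
    exact Finset.card_image_le.trans (by simp)
  have h2 := Finset.sum_range_id_mul_two (J + 1)
  have h3 : (J + 1) * (J + 1 - 1) = J * (J + 1) := by
    rw [Nat.add_sub_cancel]; ring
  rw [h3] at h2
  linarith

theorem ES_norm (J : ℕ) : ∀ ε ∈ ES J, ‖ε‖ = 1 := by
  classical
  intro ε hε
  unfold ES at hε
  rw [Finset.mem_biUnion] at hε
  obtain ⟨j, -, hε⟩ := hε
  rw [Finset.mem_image] at hε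
  obtain ⟨b, -, rfl⟩ := hε
  rw [norm_ee]
  have : (-((b : ℂ) / (j : ℂ))).im = 0 := by
    have h1 : ((b : ℂ) / (j : ℂ)) = (((b : ℝ) / (j : ℝ) : ℝ) : ℂ) := by push_cast; rfl
    rw [h1, Complex.neg_im, Complex.ofReal_im, neg_zero]
  rw [this]
  simp

theorem mem_ES {J : ℕ} {j : ℤ} (hj : 0 < j) (hJ : j ≤ J) (b : ℤ) :
    ee (-((b : ℂ) / (j : ℂ))) ∈ ES J := by
  classical
  unfold ES
  rw [Finset.mem_biUnion]
  refine ⟨j.toNat, ?_, ?_⟩
  · rw [Finset.mem_range]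
    omega
  · rw [Finset.mem_image]
    refine ⟨(b % j).toNat, ?_, ?_⟩
    · rw [Finset.mem_range]
      have h1 := Int.emod_nonneg b hj.ne'
      have h2 := Int.emod_lt_of_pos b hj
      omega
    · have h1 := Int.emod_nonneg b hj.ne'
      have e1 : (((b % j).toNat : ℕ) : ℂ) = ((b % j : ℤ) : ℂ) := by
        have : (((b % j).toNat : ℕ) : ℤ) = b % j := Int.toNat_of_nonneg h1
        exact_mod_cast congrArg (Int.cast : ℤ → ℂ) this
      have e2 : ((j.toNat : ℕ) : ℂ) = (j : ℂ) := by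
        have : ((j.toNat : ℕ) : ℤ) = j := Int.toNat_of_nonneg hj.le
        exact_mod_cast congrArg (Int.cast : ℤ → ℂ) this
      rw [e1, e2]
      have hjc : (j : ℂ) ≠ 0 := by exact_mod_cast hj.ne'
      have e3 : -((b : ℂ) / (j : ℂ)) = -(((b % j : ℤ) : ℂ) / (j : ℂ)) + ((-(b / j) : ℤ) : ℂ) := by
        have : (b : ℂ) = ((j * (b / j) + b % j : ℤ) : ℂ) := by
          rw [Int.mul_ediv_add_emod]
        rw [this]
        push_cast
        field_simp
        ring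
      rw [e3, Y813.RL.ee_add, Y813.RL.ee_int, mul_one]

/-- the imaginary part of the wall equation on a slice -/
theorem wall_im {x y : Fin 20 → ℝ} {τ ω : ℂ} {b m n : ℤ} {μ : Fin 20 → ℤ}
    (hW : WEq G 0 b m n μ (ω, sl x y τ)) :
    (m : ℝ) * ω.im = -(((n : ℝ) + dt μ x) * τ.im) := by
  unfold WEq at hW
  have h1 := congrArg Complex.im hW
  have h2 : (dt μ (sl x y τ).2).im = τ.im * dt μ x := by
    rw [dt_im, imv_sl, dt_smul]
  simp only [Int.cast_zero, zero_mul, zero_add, Complex.add_im, Complex.intCast_im,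
    Complex.zero_im] at h1
  have h3 : ((m : ℂ) * (ω, sl x y τ).1).im = m * ω.im := by
    simp [Complex.mul_im]
  have h4 : ((n : ℂ) * (ω, sl x y τ).2.1).im = n * τ.im := by
    simp [Complex.mul_im, sl]
  rw [h3, h4] at h1
  have h5 : (dt μ (ω, sl x y τ).2.2).im = τ.im * dt μ x := h2
  rw [h5] at h1
  linarith

/-- two zeros at the same height differ by a rational translation -/
theorem same_height {J : ℕ} {x y : Fin 20 → ℝ} (hx : GX G J x) {τ ω₁ ω₂ : ℂ}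
    (hτ : 0 < τ.im) {b₁ m₁ n₁ b₂ m₂ n₂ : ℤ} {μ₁ μ₂ : Fin 20 → ℤ} (hm₁ : 0 < m₁) (hm₂ : 0 < m₂)
    (hJ₁ : m₁ ≤ J) (hJ₂ : m₂ ≤ J)
    (hW₁ : WEq G 0 b₁ m₁ n₁ μ₁ (ω₁, sl x y τ)) (hW₂ : WEq G 0 b₂ m₂ n₂ μ₂ (ω₂, sl x y τ))
    (hs₁ : bf G (lam G μ₁ + (m₁ : ℝ) • x) (lam G μ₁ + (m₁ : ℝ) • x) ≤ 2)
    (hs₂ : bf G (lam G μ₂ + (m₂ : ℝ) • x) (lam G μ₂ + (m₂ : ℝ) • x) ≤ 2)
    (him : ω₁.im = ω₂.im) :
    ω₂ = ω₁ + (b₁ : ℂ) / m₁ - (b₂ : ℂ) / m₂ := by
  have e1 := wall_im hW₁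
  have e2 := wall_im hW₂
  have hr1 : (0 : ℝ) < m₁ := by exact_mod_cast hm₁
  have hr2 : (0 : ℝ) < m₂ := by exact_mod_cast hm₂
  have e3 : (m₂ : ℝ) * ((n₁ : ℝ) + dt μ₁ x) = m₁ * ((n₂ : ℝ) + dt μ₂ x) := by
    have h1 : (m₂ : ℝ) * (((n₁ : ℝ) + dt μ₁ x) * τ.im) = m₁ * (((n₂ : ℝ) + dt μ₂ x) * τ.im) := by
      have : ((n₁ : ℝ) + dt μ₁ x) * τ.im = -((m₁ : ℝ) * ω₁.im) := by linarith
      rw [this]
      have : ((n₂ : ℝ) + dt μ₂ x) * τ.im = -((m₂ : ℝ) * ω₂.im) := by linarith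
      rw [this, him]
      ring
    have h2 : ((m₂ : ℝ) * ((n₁ : ℝ) + dt μ₁ x)) * τ.im = (m₁ * ((n₂ : ℝ) + dt μ₂ x)) * τ.im := by
      linarith
    exact mul_right_cancel₀ hτ.ne' h2
  have e4 : dt (m₂ • μ₁ - m₁ • μ₂) x = (m₂ : ℝ) * dt μ₁ x - m₁ * dt μ₂ x := by
    have : m₂ • μ₁ - m₁ • μ₂ = m₂ • μ₁ + (-m₁) • μ₂ := by
      rw [neg_smul, sub_eq_add_neg]
    rw [this, dt_add_left, dt_smul_left, dt_smul_left]
    push_cast
    ring
  have e5 : dt (m₂ • μ₁ - m₁ • μ₂) x = ((m₁ * n₂ - m₂ * n₁ : ℤ) : ℝ) := by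
    rw [e4]
    push_cast
    linarith
  have e6 := hx.ind μ₁ μ₂ m₁ m₂ hm₁ hJ₁ hm₂ hJ₂ hs₁ hs₂ _ e5
  have e7 : (m₁ : ℝ) * n₂ - m₂ * n₁ = 0 := by
    rw [e6] at e5
    have h1 : dt (0 : Fin 20 → ℤ) x = 0 := by simp [dt]
    rw [h1] at e5
    push_cast at e5
    linarith
  have e8 : m₁ * n₂ = m₂ * n₁ := by
    have : (m₁ : ℝ) * n₂ = m₂ * n₁ := by linarith
    exact_mod_cast this
  have e9 : ∀ z : Fin 20 → ℂ, (m₂ : ℂ) * dt μ₁ z = m₁ * dt μ₂ z := by
    intro z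
    have h1 : m₂ • μ₁ = m₁ • μ₂ := sub_eq_zero.1 e6
    have h2 := congrArg (fun μ => dt μ z) h1
    simp only [dt_smul_left] at h2
    exact h2
  unfold WEq at hW₁ hW₂
  simp only [Int.cast_zero, zero_mul, zero_add] at hW₁ hW₂
  have e10 := e9 (sl x y τ).2
  have hc1 : (m₁ : ℂ) ≠ 0 := by exact_mod_cast hm₁.ne'
  have hc2 : (m₂ : ℂ) ≠ 0 := by exact_mod_cast hm₂.ne'
  have e8c : (m₁ : ℂ) * n₂ = m₂ * n₁ := by exact_mod_cast congrArg (Int.cast : ℤ → ℂ) e8
  have h3 : (m₁ : ℂ) * m₂ * ω₂ = m₁ * m₂ * ω₁ + m₂ * b₁ - m₁ * b₂ := by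
    linear_combination (m₁ : ℂ) * hW₂ - (m₂ : ℂ) * hW₁ - (sl x y τ).1 * e8c + e10
  have h4 : ω₂ = ω₁ + (b₁ : ℂ) / m₁ - (b₂ : ℂ) / m₂ := by
    have h5 : (m₁ : ℂ) * m₂ ≠ 0 := mul_ne_zero hc1 hc2
    apply mul_left_cancel₀ h5
    rw [h3]
    field_simp
  exact h4

/-- **no zeros on walls with few branches** -/
theorem zf_vd (hVD : JobVD) (hKD : JobKD) (h : PosSymm G) (H : CM G k F φ C m) {J : ℕ}
    (hJ : J * (J + 1) < 2 * m) (X : Fin 20 → ℤ) {N : ℕ} (hN : 0 < N)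
    (hx : GX G J (xr X N)) {η : ℝ} (hη : 1 / ((J : ℝ) + 1) ^ 2 < η) (y : Fin 20 → ℝ) :
    ∃ T₀ : ℝ, ∀ τ ω : ℂ, T₀ ≤ τ.im →
      (η + bf G (xr X N) (xr X N) / 2) * τ.im < ω.im → F (ω, sl (xr X N) y τ) ≠ 0 := by
  classical
  have hpi := Real.pi_pos
  set x := xr X N with hxdef
  set b2 := bf G x x / 2 with hb2
  have hb0 : 0 ≤ b2 := by have := h.nonneg x; positivity
  have hN' : (0 : ℝ) < N := by exact_mod_cast hN
  have hJ1 : (0 : ℝ) < (J : ℝ) + 1 := by positivity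
  set η₀ := 1 / ((J : ℝ) + 1) ^ 2 with hη₀
  have hη₀0 : 0 < η₀ := by positivity
  set η' := (η + η₀) / 2 with hη'
  have hη'1 : η₀ < η' := by rw [hη']; linarith
  have hη'2 : η' < η := by rw [hη']; linarith
  have hη'0 : 0 < η' := hη₀0.trans hη'1
  set D : ℝ := (J.factorial : ℝ) * N with hD
  have hD0 : 0 < D := by
    have : (0 : ℝ) < J.factorial := by exact_mod_cast J.factorial_pos
    positivity
  set δ := min (1 / (2 * D)) ((η - η') / 2) with hδ
  have hδ0 : 0 < δ := lt_min (by positivity) (by linarith)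
  have hδ1 : D * δ ≤ 1 / 2 := by
    have : δ ≤ 1 / (2 * D) := min_le_left _ _
    calc D * δ ≤ D * (1 / (2 * D)) := by gcongr
      _ = 1 / 2 := by field_simp
  have hδ2 : δ ≤ (η - η') / 2 := min_le_right _ _
  obtain ⟨A', T₁, hA', hT₁, hgp⟩ := gp_growth hKD h H X hN hη'0 y (fun τ hτ => hx.not_mir y τ hτ)
  obtain ⟨K, hK, hvd⟩ := hVD m (ES J) (by have := ES_card J; omega) (ES_norm J)
  -- the threshold
  have ht : Filter.Tendsto (fun T : ℝ => (K * A' / (Real.pi * δ) + 1) *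
      Real.exp ((-(Real.pi * δ)) * T)) Filter.atTop
      (𝓝 ((K * A' / (Real.pi * δ) + 1) * 0)) := by
    refine Filter.Tendsto.const_mul _ ?_
    refine Real.tendsto_exp_atBot.comp ?_
    exact Filter.Tendsto.const_mul_atTop_of_neg (by
      have : 0 < Real.pi * δ := by positivity
      linarith) Filter.tendsto_id
  rw [mul_zero] at ht
  obtain ⟨T₂, hT₂⟩ := Filter.eventually_atTop.1 (ht.eventually (gt_mem_nhds
    (show (0 : ℝ) < 1 / 2 by norm_num)))
  refine ⟨max (max T₁ T₂) (1 / η' + 1), fun τ ω₀ hτ hω₀ h0 => ?_⟩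
  have hτ1 : T₁ ≤ τ.im := ((le_max_left _ _).trans (le_max_left _ _)).trans hτ
  have hτ2 : T₂ ≤ τ.im := ((le_max_right _ _).trans (le_max_left _ _)).trans hτ
  have hτ3 : 1 / η' + 1 ≤ τ.im := (le_max_right _ _).trans hτ
  have hτ0 : 0 < τ.im := by linarith
  have hT : 1 < τ.im ^ 2 * η' := by
    have h1 : 1 / η' < τ.im := by linarith
    rw [div_lt_iff₀ hη'0] at h1
    nlinarith
  set T := τ.im with hTdef
  set p := sl x y τ with hp
  have hpU : p ∈ UP := sl_mem _ _ hτ0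
  obtain ⟨hφ0, hgb⟩ := hgp τ hτ1
  have hηT : (η' + b2) * T ≤ (η + b2) * T := mul_le_mul_of_nonneg_right (by linarith) hτ0.le
  -- information on zeros
  have info : ∀ ω : ℂ, (η' + b2) * T < ω.im → F (ω, p) = 0 →
      ∃ (b m n : ℤ) (μ : Fin 20 → ℤ), 0 < m ∧ m ≤ J ∧ WEq G 0 b m n μ (ω, p) ∧
        bf G (lam G μ + (m : ℝ) • x) (lam G μ + (m : ℝ) • x) ≤ 2 ∧ ω.im / T ≤ 1 + b2 := by
    intro ω hω hF0
    obtain ⟨b, m', n, μ, hm', hw, he, hid⟩ := zero_info h H.tf hx y hη'0 hτ0 hT hω hF0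
    have hnu := (nu_le_one hw).2
    rw [hid] at hnu
    have hht : η' < ω.im / T - b2 := by
      have : η' + b2 < ω.im / T := by rwa [lt_div_iff₀ hτ0]
      linarith
    have h5 := h.nonneg (lam G μ + (m' : ℝ) • x)
    have hm1 : (1 : ℝ) ≤ m' := by exact_mod_cast hm'
    have hnu' : (m' : ℝ) ^ 2 * (ω.im / T - b2) +
        bf G (lam G μ + (m' : ℝ) • x) (lam G μ + (m' : ℝ) • x) / 2 ≤ 1 := hnu
    have hsq : (m' : ℝ) ^ 2 * (ω.im / T - b2) ≤ 1 := by linarith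
    have hpos : 0 < (m' : ℝ) ^ 2 * (ω.im / T - b2) := by
      have : 0 < ω.im / T - b2 := by linarith
      positivity
    refine ⟨b, m', n, μ, hm', ?_, he, by linarith, ?_⟩
    · by_contra hlt
      push Not at hlt
      have h6 : (J : ℤ) + 1 ≤ m' := by omega
      have h7 : (J : ℝ) + 1 ≤ m' := by exact_mod_cast h6
      have h8 : ((J : ℝ) + 1) ^ 2 * (ω.im / T - b2) ≤ 1 := by
        refine le_trans ?_ hsq
        have : 0 ≤ ω.im / T - b2 := by linarith
        gcongr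
      have h9 : ω.im / T - b2 ≤ η₀ := by
        rw [hη₀, le_div_iff₀ (by positivity)]
        linarith
      linarith
    · have : (1 : ℝ) ≤ (m' : ℝ) ^ 2 := by nlinarith
      have h10 : 0 ≤ ω.im / T - b2 := by linarith
      have h11 : ω.im / T - b2 ≤ (m' : ℝ) ^ 2 * (ω.im / T - b2) := le_mul_of_one_le_left h10 this
      linarith
  -- heights are discrete
  have hint : ∀ (ω : ℂ) (b m n : ℤ) (μ : Fin 20 → ℤ), 0 < m → m ≤ J →
      WEq G 0 b m n μ (ω, p) → ∃ z : ℤ, D * ω.im = z * T := by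
    intro ω b m' n μ hm' hmJ he
    have h1 := wall_im he
    have hr : (0 : ℝ) < m' := by exact_mod_cast hm'
    obtain ⟨q, hq⟩ : m' ∣ (J.factorial : ℤ) := by
      have h2 : m'.toNat ∣ J.factorial := Nat.dvd_factorial (by omega) (by omega)
      have h3 : ((m'.toNat : ℕ) : ℤ) = m' := Int.toNat_of_nonneg hm'.le
      rw [← h3]
      exact_mod_cast h2
    have hqr : (J.factorial : ℝ) = m' * q := by exact_mod_cast hq
    refine ⟨-(q * (N * n + dt μ X)), ?_⟩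
    have h4 : (N : ℝ) * dt μ x = ((dt μ X : ℤ) : ℝ) := by
      rw [hxdef]
      unfold dt xr
      push_cast
      rw [Finset.mul_sum]
      refine Finset.sum_congr rfl fun i _ => ?_
      field_simp
    rw [hD, hqr]
    push_cast
    rw [← h4]
    calc (m' : ℝ) * q * N * ω.im = q * N * ((m' : ℝ) * ω.im) := by ring
      _ = _ := by rw [h1]; ring
  -- the highest zero
  let P : ℤ → Prop := fun z => ∃ ω : ℂ, F (ω, p) = 0 ∧ (η + b2) * T < ω.im ∧ D * ω.im = z * T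
  have hPbd : ∃ b : ℤ, ∀ z : ℤ, P z → z ≤ b := by
    refine ⟨⌈D * (1 + b2)⌉, ?_⟩
    rintro z ⟨ω, hω0, hω, hz⟩
    obtain ⟨b, m', n, μ, hm', hmJ, he, hs, hle⟩ := info ω (hηT.trans_lt hω) hω0
    have h1 : (z : ℝ) = D * (ω.im / T) := by
      field_simp
      linarith
    have h2 : (z : ℝ) ≤ D * (1 + b2) := by
      rw [h1]
      gcongr
    have := h2.trans (Int.le_ceil _)
    exact_mod_cast this
  have hPne : ∃ z : ℤ, P z := by
    obtain ⟨b, m', n, μ, hm', hmJ, he, hs, hle⟩ := info ω₀ (hηT.trans_lt hω₀) h0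
    obtain ⟨z, hz⟩ := hint ω₀ b m' n μ hm' hmJ he
    exact ⟨z, ω₀, h0, hω₀, hz⟩
  obtain ⟨z₁, ⟨ω₁, hω₁0, hω₁, hz₁⟩, hmax⟩ := Int.exists_greatest_of_bdd hPbd hPne
  obtain ⟨b₁, m₁, n₁, μ₁, hm₁, hmJ₁, he₁, hs₁, -⟩ := info ω₁ (hηT.trans_lt hω₁) hω₁0
  set v₀ := ω₁.im - δ * T with hv₀
  have hv₀1 : (η' + b2) * T < v₀ := by
    rw [hv₀]
    have h1 := mul_le_mul_of_nonneg_right hδ2 hτ0.le
    have h2 : 0 < (η - η') * T := mul_pos (by linarith) hτ0
    linarith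
  set r₀ := Real.exp (-(2 * Real.pi * v₀)) with hr₀
  have hr₀0 : 0 < r₀ := Real.exp_pos _
  have hr₀c : (r₀ : ℂ) ≠ 0 := by exact_mod_cast hr₀0.ne'
  have hbh : bh G p = T * b2 := bh_sl x y hτ0
  have hbv : bh G p < v₀ := by
    rw [hbh]
    have h1 : 0 < η' * T := mul_pos hη'0 hτ0
    linarith
  set R₁ := Real.exp (-(2 * Real.pi * bh G p)) with hR₁
  have hRR : r₀ < R₁ := by
    rw [hR₁, hr₀, Real.exp_lt_exp]
    have h1 := mul_lt_mul_of_pos_left hbv (show (0 : ℝ) < 2 * Real.pi by positivity)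
    linarith
  set a : ℂ := ee (ω₁ + (b₁ : ℂ) / m₁) / r₀ with ha
  have hba : (((b₁ : ℂ) / m₁)).im = 0 := by
    have : ((b₁ : ℂ) / m₁) = (((b₁ : ℝ) / m₁ : ℝ) : ℂ) := by push_cast; rfl
    rw [this, Complex.ofReal_im]
  have hna : ‖a‖ = Real.exp (-(2 * Real.pi * δ * T)) := by
    rw [ha, norm_div, norm_ee, Complex.add_im, hba, add_zero, Complex.norm_real,
      Real.norm_of_nonneg hr₀0.le, hr₀, ← Real.exp_sub]
    congr 1
    rw [hv₀]
    ring
  have hsmall : ‖a‖ ≤ Real.exp ((-(Real.pi * δ)) * T) := by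
    rw [hna]
    apply Real.exp_le_exp.2
    have : 0 < Real.pi * δ * T := by positivity
    linarith
  have hexp2 := hT₂ T hτ2
  have hKA : 0 < K * A' / (Real.pi * δ) := by positivity
  have he1 : Real.exp ((-(Real.pi * δ)) * T) < 1 / 2 := by
    have := Real.exp_pos ((-(Real.pi * δ)) * T)
    nlinarith
  -- dilation
  have hmaps : ∀ s : ℂ, s ∈ Metric.closedBall (0 : ℂ) 1 → (r₀ : ℂ) * s ∈ Metric.ball (0 : ℂ) R₁ := by
    intro s hs
    rw [Metric.mem_closedBall, dist_zero_right] at hs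
    rw [Metric.mem_ball, dist_zero_right, norm_mul, Complex.norm_real,
      Real.norm_of_nonneg hr₀0.le]
    nlinarith
  have hgan : AnalyticOnNhd ℂ (fun s => gp φ C m p (r₀ * s)) (Metric.closedBall 0 1) := by
    have h1 : AnalyticOnNhd ℂ (gp φ C m p) (Metric.ball 0 R₁) :=
      (H.gp_diff hpU).analyticOnNhd Metric.isOpen_ball
    intro s hs
    exact (h1 _ (hmaps s hs)).comp (analyticAt_const.mul analyticAt_id)
  have hhan : AnalyticOnNhd ℂ (fun s => (r₀ : ℂ) ^ m * (Hs φ C m p (r₀ * s) / φ C p))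
      (Metric.closedBall 0 1) := by
    have h1 : AnalyticOnNhd ℂ (Hs φ C m p) (Metric.ball 0 R₁) :=
      (H.Hs_diff hpU).analyticOnNhd Metric.isOpen_ball
    intro s hs
    have h2 : AnalyticAt ℂ (fun s : ℂ => Hs φ C m p (r₀ * s)) s :=
      (h1 _ (hmaps s hs)).comp (analyticAt_const.mul analyticAt_id)
    exact analyticAt_const.mul (h2.div analyticAt_const hφ0)
  have key := hvd (fun s => gp φ C m p (r₀ * s))
    (fun s => (r₀ : ℂ) ^ m * (Hs φ C m p (r₀ * s) / φ C p)) a (A' * T)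
    (by rw [hna]; positivity) (hsmall.trans he1.le) hgan hhan
    (fun s _ => by
      simp only [gp, mul_pow]
      ring)
    (fun s hs => by
      refine hgb _ ?_
      rw [Metric.mem_closedBall, dist_zero_right] at hs
      rw [norm_mul, Complex.norm_real, Real.norm_of_nonneg hr₀0.le]
      calc r₀ * ‖s‖ ≤ r₀ * 1 := by gcongr
        _ = r₀ := mul_one _
        _ ≤ _ := by
          rw [hr₀]
          apply Real.exp_le_exp.2
          have h1 := mul_le_mul_of_nonneg_left hv₀1.le (show (0 : ℝ) ≤ 2 * Real.pi by positivity)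
          have h2 : (η' + bf G (xr X N) (xr X N) / 2) * τ.im = (η' + b2) * T := rfl
          rw [h2]
          linarith)
    (fun s hs hs0 => by
      have hsne : s ≠ 0 := by
        rintro rfl
        simp [gp, H.hm.ne'] at hs0
      have hrs : (r₀ : ℂ) * s ≠ 0 := mul_ne_zero hr₀c hsne
      obtain ⟨ω₂, hω₂, him₂⟩ := exists_ee hrs
      have hle : v₀ ≤ ω₂.im := by
        rw [him₂, le_div_iff₀ (by positivity)]
        rw [Metric.mem_closedBall, dist_zero_right] at hs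
        have h1 : ‖(r₀ : ℂ) * s‖ ≤ r₀ := by
          rw [norm_mul, Complex.norm_real, Real.norm_of_nonneg hr₀0.le]
          nlinarith
        have h2 := Real.log_le_log (norm_pos_iff.2 hrs) h1
        rw [hr₀, Real.log_exp] at h2
        linarith
      rw [← hω₂, H.gp_eq hpU hφ0 (hbv.trans_le hle)] at hs0
      have hF2 : F (ω₂, p) = 0 := by
        rcases div_eq_zero_iff.1 hs0 with h1 | h1
        · rcases mul_eq_zero.1 h1 with h2 | h2
          · exact h2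
          · exact absurd h2 (ee_ne_zero _)
        · exact absurd h1 hφ0
      obtain ⟨b₂, m₂, n₂, μ₂, hm₂, hmJ₂, he₂, hs₂, -⟩ := info ω₂ (hv₀1.trans_le hle) hF2
      obtain ⟨z₂, hz₂⟩ := hint ω₂ b₂ m₂ n₂ μ₂ hm₂ hmJ₂ he₂
      have hz12 : z₁ ≤ z₂ := by
        by_contra hlt
        push Not at hlt
        have h1 : (z₂ : ℝ) + 1 ≤ z₁ := by exact_mod_cast hlt
        have h2 : D * v₀ ≤ z₂ * T := by
          rw [← hz₂]
          gcongr
        rw [hv₀, mul_sub, hz₁] at h2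
        have h3 : D * (δ * T) ≤ 1 / 2 * T := by
          rw [← mul_assoc]
          gcongr
        nlinarith
      have hge : ω₁.im ≤ ω₂.im := by
        have h1 : (z₁ : ℝ) ≤ z₂ := by exact_mod_cast hz12
        have h2 : D * ω₁.im ≤ D * ω₂.im := by
          rw [hz₁, hz₂]
          gcongr
        exact le_of_mul_le_mul_left h2 hD0
      have hP2 : P z₂ := ⟨ω₂, hF2, hω₁.trans_le hge, hz₂⟩
      have hzz : z₂ = z₁ := le_antisymm (hmax z₂ hP2) hz12
      have him12 : ω₁.im = ω₂.im := by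
        have h2 : D * ω₁.im = D * ω₂.im := by rw [hz₁, hz₂, hzz]
        exact mul_left_cancel₀ hD0.ne' h2
      have hsame := same_height hx hτ0 hm₁ hm₂ hmJ₁ hmJ₂ he₁ he₂ hs₁ hs₂ him12
      refine ⟨ee (-((b₂ : ℂ) / (m₂ : ℂ))), mem_ES hm₂ hmJ₂ b₂, ?_⟩
      rw [ha, div_mul_eq_mul_div, eq_div_iff hr₀c, ← Y813.RL.ee_add, mul_comm s, ← hω₂, hsame]
      congr 1)

    ⟨ee ω₁ / r₀, by
      rw [Metric.mem_closedBall, dist_zero_right, norm_div, norm_ee, Complex.norm_real,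
        Real.norm_of_nonneg hr₀0.le, hr₀, ← Real.exp_sub]
      rw [Real.exp_le_one_iff, hv₀]
      have : 0 < Real.pi * (δ * T) := by positivity
      linarith, by
      have e : (r₀ : ℂ) * (ee ω₁ / r₀) = ee ω₁ := by field_simp
      rw [e, H.gp_eq hpU hφ0 (hbv.trans_le (by
        rw [hv₀]
        have : 0 < δ * T := by positivity
        linarith)), hω₁0]
      simp⟩
  -- contradiction
  have hTexp : T * Real.exp (-(Real.pi * δ * T)) ≤ 1 / (Real.pi * δ) := by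
    rw [Real.exp_neg, ← div_eq_mul_inv, div_le_div_iff₀ (Real.exp_pos _) (by positivity)]
    have := Real.add_one_le_exp (Real.pi * δ * T)
    linarith
  have hfin : K * (A' * T) * ‖a‖ < 1 / 2 := by
    rw [hna]
    have e2 : Real.exp (-(2 * Real.pi * δ * T)) =
        Real.exp (-(Real.pi * δ * T)) * Real.exp ((-(Real.pi * δ)) * T) := by
      rw [← Real.exp_add]
      congr 1
      ring
    rw [e2]
    calc K * (A' * T) * (Real.exp (-(Real.pi * δ * T)) * Real.exp ((-(Real.pi * δ)) * T)) =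
        K * A' * (T * Real.exp (-(Real.pi * δ * T))) * Real.exp ((-(Real.pi * δ)) * T) := by ring
      _ ≤ K * A' * (1 / (Real.pi * δ)) * Real.exp ((-(Real.pi * δ)) * T) := by gcongr
      _ = K * A' / (Real.pi * δ) * Real.exp ((-(Real.pi * δ)) * T) := by ring
      _ ≤ (K * A' / (Real.pi * δ) + 1) * Real.exp ((-(Real.pi * δ)) * T) := by
        gcongr
        linarith
      _ < 1 / 2 := hexp2
  linarith

end

end Pool.Agent.U398.RL
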