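import Pool.Agent.U398.RL.Grow2
import Pool.Agent.U398.RL.Grow4

set_option autoImplicit false

/-!
# Principal parts of the theta components
-/

namespace Pool.Agent.U398.RL

open Complex Set Finset Topology Pool.Agent.Y813.RL
open Pool.Agent.Y683.RL (HP fco)

noncomputable section

variable {G : Matrix (Fin 20) (Fin 20) ℤ} {k : ℤ} {F : TP → ℂ}
  {φ : ℕ → ℂ × (Fin 20 → ℂ) → ℂ} {C m : ℕ} {c : ℂ → (Fin 20 → ℂ) → ℂ}

/-- vanishing of Fourier coefficients from zero free regions -/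
theorem coef_zero (hBC : JobBC) (hKD : JobKD) (hT1 : JobTheta1) (h : PosSymm G)
    (H : CM G k F φ C m) (hc : JacobiZero ((m : ℤ) • G) c)
    (hcq : ∀ τ z, 0 < τ.im → φ (C + m) (τ, z) = φ C (τ, z) * c τ z)
    {J : ℕ} (X : Fin 20 → ℤ) {N : ℕ} (hN : 0 < N) (hx : GX G J (xr X N)) {η : ℝ} (hη : 0 < η)
    (hz : ∀ y : Fin 20 → ℝ, ∃ T₀ : ℝ, ∀ τ ω : ℂ, T₀ ≤ τ.im →
      (η + bf G (xr X N) (xr X N) / 2) * τ.im < ω.im → F (ω, sl (xr X N) y τ) ≠ 0)
    {μ : Fin 20 → ℤ} {n : ℤ}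
    (hn : (n : ℝ) + m * (η + bf G (xr X N) (xr X N) / 2) + dt μ (xr X N) < 0) :
    fco 0 (fc c μ) n = 0 := by
  refine fc_zero hT1 (posSymm_smul h H.hm) hc X hN
    (E := m * (η + bf G (xr X N) (xr X N) / 2)) ?_ hn
  intro y
  obtain ⟨A, T₁, -, hA, hb⟩ := c_growth hBC hKD h H hcq X hN hη y
    (fun τ hτ => hx.not_mir y τ hτ) (hz y)
  refine ⟨A, T₁, hA, fun τ hτ => ?_⟩
  have := hb τ hτ
  rwa [show 2 * Real.pi * (m * (η + bf G (xr X N) (xr X N) / 2)) * τ.im =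
    2 * Real.pi * m * (η + bf G (xr X N) (xr X N) / 2) * τ.im by ring]

/-- growth of the theta components -/
theorem vf_growth {A : Matrix (Fin 20) (Fin 20) ℤ} (hT1 : JobTheta1) (hA : PosSymm A)
    (hc : JacobiZero A c) {μ : Fin 20 → ℤ} {q : ℝ}
    (h0 : ∀ n : ℤ, (n : ℝ) < bd A μ μ / 2 - q → fco 0 (fc c μ) n = 0) :
    ∃ B : ℝ, ∀ τ : ℂ, 1 / 2 ≤ τ.im → ‖vf A c μ τ‖ ≤ B * Real.exp (2 * Real.pi * q * τ.im) := by
  obtain ⟨t1, t2, -, -, -⟩ := hT1 A c hA hc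
  have hfc : HP 0 (fc c μ) := ⟨t1 μ, fun t ht => t2 μ t ht⟩
  obtain ⟨B, hB, hb⟩ := per_growth hfc h0
  refine ⟨B, fun τ hτ => ?_⟩
  unfold vf
  rw [norm_mul, norm_ee]
  have e1 : (-(τ * (bd A μ μ : ℂ) / 2)).im = -(τ.im * bd A μ μ / 2) := by
    have : -(τ * (bd A μ μ : ℂ) / 2) = ((-(bd A μ μ / 2) : ℝ) : ℂ) * τ := by
      push_cast; ring
    rw [this, Complex.im_ofReal_mul]
    ring
  rw [e1]
  calc Real.exp (-(2 * Real.pi * -(τ.im * bd A μ μ / 2))) * ‖fc c μ τ‖ ≤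
      Real.exp (-(2 * Real.pi * -(τ.im * bd A μ μ / 2))) *
        (B * Real.exp (-(2 * Real.pi * (bd A μ μ / 2 - q) * τ.im))) := by
        gcongr
        exact hb τ hτ
    _ = B * (Real.exp (-(2 * Real.pi * -(τ.im * bd A μ μ / 2))) *
        Real.exp (-(2 * Real.pi * (bd A μ μ / 2 - q) * τ.im))) := by ring
    _ = _ := by
        rw [← Real.exp_add]
        congr 2
        ring

theorem lam_smul (h : PosSymm G) (hm : 0 < m) (μ : Fin 20 → ℤ) :
    lam ((m : ℤ) • G) μ = (m : ℝ)⁻¹ • lam G μ := by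
  have hmr : (m : ℝ) ≠ 0 := by exact_mod_cast hm.ne'
  have hA := posSymm_smul h hm
  have h1 : ∀ y, bf ((m : ℤ) • G) (lam ((m : ℤ) • G) μ - (m : ℝ)⁻¹ • lam G μ) y = 0 := by
    intro y
    rw [bf_sub_left, bf_lam hA, bf_smul_left, bf_smulR, bf_lam h]
    field_simp
    ring
  have h2 := hA.eq_zero (h1 _)
  exact sub_eq_zero.1 h2

theorem bd_smul (h : PosSymm G) (hm : 0 < m) (μ : Fin 20 → ℤ) :
    bd ((m : ℤ) • G) μ μ = bd G μ μ / m := by
  have hmr : (m : ℝ) ≠ 0 := by exact_mod_cast hm.ne'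
  rw [← bf_lam_lam (posSymm_smul h hm), lam_smul h hm, bf_smul_left, bf_smul_right, bf_smulR,
    bf_lam_lam h]
  field_simp

/-- directions near the center of a component -/
theorem near_center (h : PosSymm G) (hm : 0 < m) (J : ℕ) (μ : Fin 20 → ℤ) {n : ℤ} {η ρ : ℝ}
    (hρ : 0 < ρ) (hn : (n : ℝ) + m * η < bd ((m : ℤ) • G) μ μ / 2) :
    ∃ (X : Fin 20 → ℤ) (N : ℕ), 0 < N ∧ GX G J (xr X N) ∧
      (n : ℝ) + m * (η + bf G (xr X N) (xr X N) / 2) + dt μ (xr X N) < 0 ∧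
      bf G (xr X N + (m : ℝ)⁻¹ • lam G μ) (xr X N + (m : ℝ)⁻¹ • lam G μ) < ρ := by
  have hmr : (m : ℝ) ≠ 0 := by exact_mod_cast hm.ne'
  have hO : IsOpen {x : Fin 20 → ℝ | (n : ℝ) + m * (η + bf G x x / 2) + dt μ x < 0 ∧
      bf G (x + (m : ℝ)⁻¹ • lam G μ) (x + (m : ℝ)⁻¹ • lam G μ) < ρ} := by
    have c1 : Continuous fun x : Fin 20 → ℝ => bf G x x := bf_contR G continuous_id continuous_id
    have c2 : Continuous fun x : Fin 20 → ℝ => dt μ x := dt_continuous μ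
    have c3 : Continuous fun x : Fin 20 → ℝ =>
        bf G (x + (m : ℝ)⁻¹ • lam G μ) (x + (m : ℝ)⁻¹ • lam G μ) :=
      bf_contR G (by fun_prop) (by fun_prop)
    exact (isOpen_lt ((continuous_const.add (continuous_const.mul
      (continuous_const.add (c1.div_const 2)))).add c2) continuous_const).inter
      (isOpen_lt c3 continuous_const)
  have hne : {x : Fin 20 → ℝ | (n : ℝ) + m * (η + bf G x x / 2) + dt μ x < 0 ∧
      bf G (x + (m : ℝ)⁻¹ • lam G μ) (x + (m : ℝ)⁻¹ • lam G μ) < ρ}.Nonempty := by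
    refine ⟨-((m : ℝ)⁻¹ • lam G μ), ?_, ?_⟩
    · have e1 : bf G (-((m : ℝ)⁻¹ • lam G μ)) (-((m : ℝ)⁻¹ • lam G μ)) =
          bd G μ μ / (m : ℝ) ^ 2 := by
        rw [bf_neg_left, bf_neg_right, bf_smul_left, bf_smul_right, bf_lam_lam h]
        field_simp
      have e2 : dt μ (-((m : ℝ)⁻¹ • lam G μ)) = -(bd G μ μ / m) := by
        have : -((m : ℝ)⁻¹ • lam G μ) = (-(m : ℝ)⁻¹) • lam G μ := by rw [neg_smul]
        rw [this, dt_smul, ← bf_lam h, bf_lam_lam h]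
        field_simp
      rw [bd_smul h hm] at hn
      rw [e1, e2]
      have e3 : (m : ℝ) * (η + bd G μ μ / (m : ℝ) ^ 2 / 2) = m * η + bd G μ μ / m / 2 := by
        field_simp
      rw [e3]
      linarith
    · rw [neg_add_cancel, bf_zero_left]
      exact hρ
  obtain ⟨X, N, hN, ⟨h1, h2⟩, hx⟩ := exists_GX h J hO hne
  exact ⟨X, N, hN, hx, h1, h2⟩

/-- pole orders for index at least two -/
theorem pole_two (hBC : JobBC) (hVD : JobVD) (hKD : JobKD) (hT1 : JobTheta1) (h : PosSymm G)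
    (H : CM G k F φ C m) (hc : JacobiZero ((m : ℤ) • G) c)
    (hcq : ∀ τ z, 0 < τ.im → φ (C + m) (τ, z) = φ C (τ, z) * c τ z) (hm2 : 2 ≤ m)
    (μ : Fin 20 → ℤ) (n : ℤ) (hn : (n : ℝ) < bd ((m : ℤ) • G) μ μ / 2 - 4 / 5) :
    fco 0 (fc c μ) n = 0 := by
  classical
  have hex : ∃ J : ℕ, 2 * m ≤ (J + 1) * (J + 2) := ⟨2 * m, by nlinarith⟩
  set J := Nat.find hex with hJ
  have hJ1 : 2 * m ≤ (J + 1) * (J + 2) := Nat.find_spec hex
  have hJ0 : 1 ≤ J := by
    by_contra hlt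
    have h0 : J = 0 := by omega
    rw [h0] at hJ1
    omega
  have hJ2 : J * (J + 1) < 2 * m := by
    have := Nat.find_min hex (m := J - 1) (by rw [← hJ]; omega)
    push Not at this
    have e : J - 1 + 1 = J := by omega
    have e2 : J - 1 + 2 = J + 1 := by omega
    rw [e, e2] at this
    exact this
  have hJr : (1 : ℝ) ≤ J := by exact_mod_cast hJ0
  have hmr : (0 : ℝ) < m := by exact_mod_cast H.hm
  have hle : (m : ℝ) * (1 / ((J : ℝ) + 1) ^ 2) ≤ 3 / 4 := by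
    have h1 : (2 : ℝ) * m ≤ ((J : ℝ) + 1) * ((J : ℝ) + 2) := by exact_mod_cast hJ1
    rw [mul_one_div, div_le_div_iff₀ (by positivity) (by norm_num)]
    nlinarith
  set η : ℝ := 1 / ((J : ℝ) + 1) ^ 2 + 1 / (20 * m) with hη
  have hη1 : 1 / ((J : ℝ) + 1) ^ 2 < η := by
    rw [hη]
    have : 0 < 1 / (20 * (m : ℝ)) := by positivity
    linarith
  have hη0 : 0 < η := lt_trans (by positivity) hη1
  have hmη : (m : ℝ) * η ≤ 4 / 5 := by
    rw [hη, mul_add]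
    have : (m : ℝ) * (1 / (20 * m)) = 1 / 20 := by field_simp
    rw [this]
    linarith
  obtain ⟨X, N, hN, hx, h1, -⟩ := near_center h H.hm J μ (n := n) (η := η) one_pos (by linarith)
  exact coef_zero hBC hKD hT1 h H hc hcq X hN hx hη0
    (fun y => zf_vd hVD hKD h H hJ2 X hN hx hη1 y) h1

/-- pole orders at most one -/
theorem pole_one (hBC : JobBC) (hKD : JobKD) (hT1 : JobTheta1) (h : PosSymm G)
    (H : CM G k F φ C 1) (hc : JacobiZero (((1 : ℕ) : ℤ) • G) c)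
    (hcq : ∀ τ z, 0 < τ.im → φ (C + 1) (τ, z) = φ C (τ, z) * c τ z)
    (μ : Fin 20 → ℤ) (n : ℤ) (hn : (n : ℝ) < bd G μ μ / 2 - 1) :
    fco 0 (fc c μ) n = 0 := by
  obtain ⟨X, N, hN, hx, h1, -⟩ := near_center h one_pos 1 μ (n := n) (η := 1) one_pos (by
    rw [bd_smul h one_pos]
    push_cast
    linarith)
  refine coef_zero hBC hKD hT1 h H hc hcq X hN hx one_pos
    (fun y => zf_top h H.tf hx (by norm_num) (fun v => ?_) y) h1
  have := h.nonneg ((fun i => (v i : ℝ)) + xr X N)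
  linarith

/-- pole orders at most one half outside the lattice -/
theorem pole_half (hBC : JobBC) (hKD : JobKD) (hT1 : JobTheta1) (h : PosSymm G)
    (H : CM G k F φ C 1) (hc : JacobiZero (((1 : ℕ) : ℤ) • G) c)
    (hcq : ∀ τ z, 0 < τ.im → φ (C + 1) (τ, z) = φ C (τ, z) * c τ z)
    (μ : Fin 20 → ℤ) (hμ : 0 < bd G μ μ)
    (hmin : ∀ v : Fin 20 → ℤ, bd G μ μ ≤ bf G ((fun i => (v i : ℝ)) - lam G μ)
      ((fun i => (v i : ℝ)) - lam G μ)) (n : ℤ) (hn : (n : ℝ) < bd G μ μ / 2 - 1 / 2) :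
    fco 0 (fc c μ) n = 0 := by
  set D := bd G μ μ with hD
  have hn1 : (n : ℝ) < D - 1 := by
    by_cases h1 : 1 ≤ D
    · linarith
    · push Not at h1
      have h2 : (n : ℝ) < 0 := by linarith
      have h3 : n < 0 := by exact_mod_cast h2
      have h4 : n ≤ -1 := by omega
      have h5 : (n : ℝ) ≤ -1 := by exact_mod_cast h4
      linarith
  -- the level
  obtain ⟨η, hη1, hη2, hη3⟩ : ∃ η : ℝ, 1 / 2 ≤ η ∧ 1 - D / 2 < η ∧ (n : ℝ) + η < D / 2 := by
    refine ⟨max (1 / 2) ((1 - D / 2 + (D / 2 - n)) / 2), le_max_left _ _, ?_, ?_⟩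
    · refine lt_max_of_lt_right ?_
      linarith
    · rcases le_total (1 / 2 : ℝ) ((1 - D / 2 + (D / 2 - n)) / 2) with h1 | h1
      · rw [max_eq_right h1]; linarith
      · rw [max_eq_left h1]; linarith
  -- the radius
  obtain ⟨r, hr0, hr⟩ : ∃ r : ℝ, 0 < r ∧ 2 * (1 - η) + 2 * r + r ^ 2 < D := by
    set ε := D - 2 * (1 - η) with hε
    have hε0 : 0 < ε := by rw [hε]; linarith
    refine ⟨min 1 (ε / 4), lt_min one_pos (by positivity), ?_⟩
    have h1 : min 1 (ε / 4) ≤ 1 := min_le_left _ _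
    have h2 : min 1 (ε / 4) ≤ ε / 4 := min_le_right _ _
    have h3 : 0 < min 1 (ε / 4) := lt_min one_pos (by positivity)
    have h4 : (min 1 (ε / 4)) ^ 2 ≤ min 1 (ε / 4) := by nlinarith
    have h5 : D = ε + 2 * (1 - η) := by rw [hε]; ring
    rw [h5]
    linarith
  obtain ⟨X, N, hN, hx, h1, h2⟩ := near_center h one_pos 1 μ (n := n) (η := η)
    (ρ := r ^ 2) (by positivity) (by
      rw [bd_smul h one_pos]
      push_cast
      linarith)
  refine coef_zero hBC hKD hT1 h H hc hcq X hN hx (by linarith)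
    (fun y => zf_top h H.tf hx hη1 (fun v => ?_) y) h1
  by_contra hlt
  push Not at hlt
  set a := (fun i => (v i : ℝ)) + xr X N with ha
  set b := xr X N + lam G μ with hb
  have hbr : bf G b b < r ^ 2 := by
    have : (((1 : ℕ) : ℝ))⁻¹ • lam G μ = lam G μ := by simp
    rw [this] at h2
    exact h2
  have hab : (fun i => (v i : ℝ)) - lam G μ = a - b := by
    rw [ha, hb]
    funext i
    simp only [Pi.add_apply, Pi.sub_apply]
    ring
  have h3 := hmin v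
  rw [hab] at h3
  have haa : bf G a a < 2 * (1 - η) := by linarith
  have h4 := h.nonneg a
  have h5 := h.nonneg b
  have hcs := h.cs a b
  have hexp : bf G (a - b) (a - b) = bf G a a - 2 * bf G a b + bf G b b := by
    simp only [bf_sub_left, bf_sub_right, bf_comm h.symm b a]
    ring
  have hbound : |bf G a b| ≤ r := by
    apply abs_le_of_sq_le_sq _ hr0.le
    calc bf G a b ^ 2 ≤ bf G a a * bf G b b := hcs
      _ ≤ 1 * r ^ 2 := mul_le_mul (by linarith) hbr.le h5 zero_le_one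
      _ = r ^ 2 := one_mul _
  have h6 := neg_abs_le (bf G a b)
  rw [hexp] at h3
  nlinarith

end

end Pool.Agent.U398.RL
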