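import Pool.Agent.Y813.RL.Bf

set_option autoImplicit false

/-!
# Project RL (MP_f1d0b6_nt, owner helper398): the parts of `JobGenus`

A job `X` is to prove `theorem jobX : JobX` in a module of your own.
General lemmas on `bf` (bilinearity, symmetry, casts) are in `Pool.Agent.Y813.RL.Bf`.
-/

namespace Pool.Agent.U398.RL

open Pool.Agent.Y813.RL

/-- The 2-adic data: even lattice of determinant 4 with two vectors that span `2 V`,
`V = (2 1; 1 2)` up to units, and that have even products with all vectors. -/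
def TwoData {ι : Type} [Fintype ι] [DecidableEq ι] (B : Matrix ι ι ℤ) : Prop :=
  B.IsSymm ∧ (∀ i, Even (B i i)) ∧ B.det = 4 ∧ ∃ (x y : ι → ℤ) (k l m : ℤ),
    bf B x x = 4 * (2 * k + 1) ∧ bf B y y = 4 * (2 * l + 1) ∧ bf B x y = 2 * (2 * m + 1) ∧
    ∀ v : ι → ℤ, (∃ s : ℤ, bf B x v = 2 * s) ∧ ∃ t : ℤ, bf B y v = 2 * t

/-- GENUS A: the discriminant group is `(Z/2)^2`. Proof: for `μ` outside `G Z^20`,
`q(μ) = bd μ μ` is odd; `bd (2μ) (2μ) = 4 bd μ μ` is even, so `2 μ ∈ G Z^20`; for two different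
nonzero classes `2 bd μ ν = q(μ + ν) - q(μ) - q(ν)` is odd; for three independent classes
`bd μ (ν + ρ)` gives a contradiction; one nonzero class `μ` only is impossible: choose `v` with
`μ · v` odd (otherwise `μ = 2 μ'`, and `μ'` is outside too; `2 μ' ∈ G Z^20`, contradiction), then
... (`bd` is nondegenerate: `v ↦ μ · v mod 2` comes from a class `ν` with `2 bd μ ν` odd).
So the index of `G Z^20` is 4 and `det G = 4` (`det` is positive). `x = 2 G⁻¹ μ`, `y = 2 G⁻¹ ν`. -/
def JobGenusA : Prop := ∀ (G : Matrix (Fin 20) (Fin 20) ℤ), PosSymm G → (∀ i, Even (G i i)) →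
  (∀ μ, (¬ ∃ v : Fin 20 → ℤ, μ = G.mulVec v) → ∃ k : ℤ, bd G μ μ = 2 * k + 1) → G.det ≠ 1 →
  TwoData G

/-- GENUS EED: the data for `2E_8 + D_4`: symmetric, positive definite, even, determinant 4;
in `D_4` with leaves `a, b, d` of the diagram take `x = a + b`, `y = b + d`. -/
def JobGenusEED : Prop := TwoData gramEED ∧
  ∀ x : (Fin 8 ⊕ (Fin 8 ⊕ Fin 4)) → ℝ, x ≠ 0 → 0 < bf gramEED x x

/-- GENUS TWO: the 2-adic classification. Proof: over `Z_2` the lattice is `N + N^⊥` with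
`N = <x, y> = 2 P`, `P` even unimodular of rank 2 with determinant `3 mod 8`, so `P = V`; `N^⊥` is
even unimodular of rank 18. An even unimodular lattice of rank at least 3 has a primitive isotropic
vector (a ternary quadratic form over `F_2` has a nontrivial zero; Hensel), so it splits a
hyperbolic plane; after 8 steps a plane `(2a 1; 1 2b)` is left and the determinant shows that `ab`
is odd, so it is `V` (Hensel). -/
def JobGenusTwo : Prop := ∀ (ι κ : Type) [Fintype ι] [DecidableEq ι] [Fintype κ] [DecidableEq κ]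
  (B : Matrix ι ι ℤ) (C : Matrix κ κ ℤ), Fintype.card ι = 20 → Fintype.card κ = 20 →
  TwoData B → TwoData C →
    ∃ e : (ι → ℤ_[2]) ≃ₗ[ℤ_[2]] (κ → ℤ_[2]), ∀ x y, bf C (e x) (e y) = bf B x y

/-- GENUS ODD: over `Z_p`, `p` odd, both lattices are isometric to `<1, ..., 1>`. Proof: a
unimodular form of rank at least 2 represents 1 (mod `p`, then Hensel), split it off; the last
entry is 4 times a unit square. -/
def JobGenusOdd : Prop := ∀ (p : ℕ) [Fact p.Prime], p ≠ 2 →
  ∀ (ι κ : Type) [Fintype ι] [DecidableEq ι] [Fintype κ] [DecidableEq κ]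
  (B : Matrix ι ι ℤ) (C : Matrix κ κ ℤ), Fintype.card ι = Fintype.card κ →
  B.IsSymm → C.IsSymm → B.det = 4 → C.det = 4 →
    ∃ e : (ι → ℤ_[p]) ≃ₗ[ℤ_[p]] (κ → ℤ_[p]), ∀ x y, bf C (e x) (e y) = bf B x y

/-- GENUS REAL -/
def JobGenusReal : Prop :=
  ∀ (ι κ : Type) [Fintype ι] [DecidableEq ι] [Fintype κ] [DecidableEq κ]
  (B : Matrix ι ι ℤ) (C : Matrix κ κ ℤ), Fintype.card ι = Fintype.card κ →
  B.IsSymm → C.IsSymm → (∀ x : ι → ℝ, x ≠ 0 → 0 < bf B x x) →
  (∀ x : κ → ℝ, x ≠ 0 → 0 < bf C x x) →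
    ∃ e : (ι → ℝ) ≃ₗ[ℝ] (κ → ℝ), ∀ x y, bf C (e x) (e y) = bf B x y

/-- the assembly of `JobGenus` -/
theorem genus (hA : JobGenusA) (hE : JobGenusEED) (h2 : JobGenusTwo) (hO : JobGenusOdd)
    (hR : JobGenusReal) : JobGenus := by
  intro G hG he hq hd
  have hT := hA G hG he hq hd
  refine ⟨hR _ _ G gramEED (by simp) hG.symm hE.1.1 hG.pos hE.2, ?_⟩
  intro p hp
  rcases eq_or_ne p 2 with h | h
  · subst h
    exact h2 _ _ G gramEED (by simp) (by simp) hT hE.1
  · exact hO p h _ _ G gramEED (by simp) hG.symm hE.1.1 hT.2.2.1 hE.1.2.2.1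

end Pool.Agent.U398.RL
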